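import Pool.Agent.H9.SE.Stmt

/-!
# MP_f6fd33_lc: uniformization at two non adjacent projective levels. Statement level definitions

Reals are functions `ℕ → ℕ`; `PSR.gr`, `PSR.pr`, `PSR.Op` (graphs, pairs, open sets) are in
`Pool/Agent/H9/SE/Stmt.lean`, `SF.V`, `SF.ZFC`, `SF.LA`, `SF.IsPo`, `SF.Gen`, `SF.Ext` in
`Pool/Agent/H45/SF/Stmt.lean`.
-/

open Ordinal

namespace PUF

/-- The `Σ¹ₙ` set with the code `a` in the model `W`: level `0` is the open set coded by `a`, and `x`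
is an element of the set of level `n + 1` if for some real `y` of `W` the pair `(x, y)` is not in the
set of level `n`. So `Σ¹₁ = ∃ y` closed, `Σ¹₂ = ∃ y₁ ∀ y₂` open, ... For `n ≥ 1` the boldface `Σ¹ₙ`
sets of `W` are the sets with codes `a` in `W`. -/
def Sig (W : SF.V → Prop) : ℕ → (ℕ → ℕ) → (ℕ → ℕ) → Prop
  | 0, a, x => PSR.Op a x
  | n + 1, a, x => ∃ y, W (PSR.gr y) ∧ ¬ Sig W n a (PSR.pr x y)

/-- The `Π¹ₙ` set with the code `a` in the model `W`, the complement of the `Σ¹ₙ` set. -/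
def Pi (W : SF.V → Prop) (n : ℕ) (a x : ℕ → ℕ) : Prop := ¬ Sig W n a x

/-- In `W` every boldface `Π¹ₙ` subset `A` of the plane (code `a`) is uniformized by a `Π¹ₙ` set `f`
(code `b`): `f ⊆ A`, `f` is the graph of a function, and the domain of `f` is the projection of
`A`. -/
def PiUniformization (W : SF.V → Prop) (n : ℕ) : Prop :=
  ∀ a, W (PSR.gr a) → ∃ b, W (PSR.gr b) ∧
    (∀ x y, W (PSR.gr x) → W (PSR.gr y) → Pi W n b (PSR.pr x y) → Pi W n a (PSR.pr x y)) ∧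
    (∀ x y z, W (PSR.gr x) → W (PSR.gr y) → W (PSR.gr z) → Pi W n b (PSR.pr x y) →
      Pi W n b (PSR.pr x z) → y = z) ∧
    ∀ x y, W (PSR.gr x) → W (PSR.gr y) → Pi W n a (PSR.pr x y) →
      ∃ z, W (PSR.gr z) ∧ Pi W n b (PSR.pr x z)

/-- The main statement: there is a countable level `L_τ` of the constructible hierarchy which is a
model of ZFC; and for all distinct non adjacent `n, m ≥ 1` which are different from `2` every such
`L_τ` has a forcing notion such that in all generic extensions both the `Π¹ₙ` and the `Π¹ₘ`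
uniformization property hold. -/
def Goal : Prop :=
  (∃ τ : Ordinal.{0}, ((SF.LA ∅ τ : SF.V) : Set SF.V).Countable ∧ SF.ZFC (· ∈ SF.LA ∅ τ)) ∧
  ∀ n m : ℕ, 1 ≤ n → 1 ≤ m → n ≠ 2 → m ≠ 2 → (n + 2 ≤ m ∨ m + 2 ≤ n) →
    ∀ τ : Ordinal.{0}, ((SF.LA ∅ τ : SF.V) : Set SF.V).Countable → SF.ZFC (· ∈ SF.LA ∅ τ) →
      ∃ c ∈ SF.LA ∅ τ, ∃ r ∈ SF.LA ∅ τ, SF.IsPo c r ∧
        ∀ G, SF.Gen (· ∈ SF.LA ∅ τ) c r G →
          PiUniformization (SF.Ext (· ∈ SF.LA ∅ τ) G) n ∧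
          PiUniformization (SF.Ext (· ∈ SF.LA ∅ τ) G) m

end PUF
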