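import Pool.Agent.H45.SE.TarT
import Pool.Agent.H72.UZ.Stmt

/-!
# MP_f6fd33_lc: definitions (labels, base systems)

Paper proof: /team-store/H72_f6fd33_proof2.md.
-/

set_option linter.unusedVariables false

open Ordinal Order Set
open scoped ZFSet

namespace SE.UZ

open SF

/-! ## Projective classes, reals with values in `hf` -/

/-- the `Σ¹ₙ` set with the code `a` in `W` -/
def SgH (W : V → Prop) : ℕ → V → V → Prop
  | 0, a, x => Opn a x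
  | n + 1, a, x => ∃ v, W v ∧ Rl v ∧ ¬ SgH W n a (prl x v)

/-- the relations `D_{j+3}` -/
def Dk (W : V → Prop) (L : V) : ℕ → V → Prop
  | 0, z => Cod W L z
  | j + 1, z => ∃ a, W a ∧ Rl a ∧ ¬ Dk W L j (prl (prl (kc 1) z) a)

/-- `Π¹ₙ` uniformization, codes with values in `hf` -/
def UniH (W : V → Prop) (n : ℕ) : Prop := ∀ a, W a → Rl a → ∃ b, W b ∧ Rl b ∧
  (∀ x y, W x → Rl x → W y → Rl y → ¬ SgH W n b (prl x y) → ¬ SgH W n a (prl x y)) ∧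
  (∀ x y z, W x → Rl x → W y → Rl y → W z → Rl z → ¬ SgH W n b (prl x y) →
    ¬ SgH W n b (prl x z) → y = z) ∧
  ∀ x y, W x → Rl x → W y → Rl y → ¬ SgH W n a (prl x y) →
    ∃ z, W z ∧ Rl z ∧ ¬ SgH W n b (prl x z)

/-! ## Labels: kind, tag, time, view -/

/-- kind -/
noncomputable def kd (i : V) : V := fst (lG i)
/-- tag -/
noncomputable def tg (i : V) : V := fst (snd (lG i))
/-- time -/
noncomputable def tm (i : V) : V := fst (snd (snd (lG i)))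
/-- view -/
noncomputable def vw (i : V) : V := snd (snd (snd (lG i)))

/-- the label with kind `e`, tag `g`, time `τ`, view `u`, support `s`, name `Z` -/
noncomputable def mk (L e g τ u s Z : V) : V :=
  lab (nS 0) (ZFSet.pair e (ZFSet.pair g (ZFSet.pair τ u))) s (sel (e = nS 3) Z (knm L s 0)) Z
    (knm L s 0) (knm L s 0)

/-- `i` is a label of this form -/
structure Gl (L i : V) : Prop where
  lab : Lab L i
  kd : kd i ∈ om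
  eq : i = mk L (SE.UZ.kd i) (tg i) (tm i) (vw i) (lS i) (lZ i)

/-- closed set of labels in `H` -/
structure CS (D : Cx) (ρ : V) : Prop where
  h : ρ ∈ D.H
  c : Cld D.L ρ
  g : ∀ i ∈ ρ, Gl D.L i

/-- the promise of the label `i` -/
noncomputable def prm (G i : V) : V := prl (prl (kc 1) (ev G (lZ i))) (cg G i)

/-- `x` is a real of the restriction of `G` to `ρ` -/
def RR (D : Cx) (ρ G x : V) : Prop := D.W (gs G ρ) x ∧ Rl x

/-- the ambient context: `κ` is the first uncountable ordinal of the ground model -/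
structure Amb (D : Cx) (κ : V) : Prop where
  ok : D.Ok
  kH : κ ∈ D.H
  ord : IsOrd κ
  zero : ∅ ∈ κ
  suc : ∀ ξ ∈ κ, insert ξ ξ ∈ κ
  bd : ∀ x, Ctbl D.N x → x ⊆ κ → ∃ γ ∈ κ, x ⊆ γ
  nam : ∀ ρ ∈ D.H, Cld D.L ρ → ∃ S ∈ D.H, ∀ Y, Y ∈ S ↔ D.N Y ∧ Nam D.L ρ Y
  /-- the set of the reals which are not coded is `Π¹₃` -/
  cmx : ∀ ρ, D.N ρ → Cld D.L ρ → ∀ G, D.Gn ρ G → ∃ a, D.W G a ∧ Rl a ∧
    ∀ x, D.W G x → Rl x → (¬ Cod (D.W G) D.L x ↔ P3 (D.W G) a x)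

/-! ## Isomorphisms -/

/-- image of a filter under a (global) isomorphism onto `ρ'` -/
noncomputable def gi (D : Cx) (π ρ' G : V) : V := gp D.L π ∅ ρ' G

/-- image of a name -/
noncomputable def mvn (π Y : V) : V := imS Y fun z => ZFSet.pair (mv π (fst z)) (snd z)

/-- `π` is an `l`-isomorphism of `ρ` onto `ρ'` of type `S` -/
structure Isl (D : Cx) (l : ℕ) (S : ℕ → Prop) (π ρ ρ' : V) : Prop where
  i : D.IsN π ρ ρ' ∅
  z : AgZ D.L π ρ ∅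
  c : CS D ρ
  c' : CS D ρ'
  k : ∀ i ∈ ρ, ∀ e : ℕ, 3 ≤ e → e ≤ l → (kd i = nS e ↔ kd (app π i) = nS e)
  v : ∀ i ∈ ρ, ∀ e : ℕ, S e → kd i = nS e →
    vw i ⊆ ρ ∧ vw (app π i) = im π (vw i) ∧ tm (app π i) = tm i

/-! ## Base systems -/

/-- the data of a base system -/
structure BS where
  /-- level -/
  l : ℕ
  /-- type -/
  S : ℕ → Prop
  /-- objects -/
  Ob : V
  /-- the sets of labels of the objects (a function) -/
  U : V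
  /-- the order (a set of pairs) -/
  le : V
  /-- richness (a set of pairs) -/
  Rc : V
  /-- transport (a function on the pairs `(π, B)`) -/
  tr : V
  /-- the secured facts (a set of quadruples `(B, (p, (a, x)))`) -/
  Sc : V

/-- the set of labels of `B` -/
noncomputable def BS.u (b : BS) (B : V) : V := app b.U B
/-- `C` is a face of `B` -/
def BS.Le (b : BS) (C B : V) : Prop := ZFSet.pair C B ∈ b.le
/-- `B` is rich over `C` -/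
def BS.Ri (b : BS) (C B : V) : Prop := ZFSet.pair C B ∈ b.Rc
/-- transport -/
noncomputable def BS.T (b : BS) (π B : V) : V := app b.tr (ZFSet.pair π B)
/-- the `Π¹_{l-1}` fact about `a`, `x` is secured -/
def BS.Se (b : BS) (B G a x : V) : Prop := ∃ p ∈ G, ∃ a' x',
  ZFSet.pair B (ZFSet.pair p (ZFSet.pair a' x')) ∈ b.Sc ∧ ev G a' = a ∧ ev G x' = x
/-- the `Σ¹_l` fact about `a`, `x` is secured -/
def BS.Ss (b : BS) (D : Cx) (B G a x : V) : Prop := ∃ v, RR D (b.u B) G v ∧ b.Se B G a (prl x v)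

/-- `G` is a generic filter for `B` -/
def BS.Gn (b : BS) (D : Cx) (B G : V) : Prop := D.Gn (b.u B) G

/-- `(B', G')` is an extension of `(B, G)` -/
structure BS.Xt (b : BS) (D : Cx) (B G B' G' : V) : Prop where
  le : b.Le B B'
  g : D.Gn (b.u B') G'
  r : gs G' (b.u B) = G

/-- the union of the sets of labels of the objects `app F v`, `v ∈ I` -/
noncomputable def BS.un (b : BS) (I F : V) : V := ⋃₀ (imS I fun v => b.u (app F v)) 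

/-- an increasing `κ`-chain with rich successors -/
structure BS.Ch (b : BS) (D : Cx) (κ F : V) : Prop where
  n : D.N F
  o : ∀ ξ ∈ κ, app F ξ ∈ b.Ob
  m : ∀ ξ ∈ κ, ∀ η ∈ κ, ξ ∈ η → b.Le (app F ξ) (app F η)
  r : ∀ ξ ∈ κ, b.Ri (app F ξ) (app F (insert ξ ξ))

/-- an agreeing family -/
structure BS.Ag (b : BS) (D : Cx) (I F : V) : Prop where
  n : D.N F
  h : I ∈ D.H
  o : ∀ v ∈ I, app F v ∈ b.Ob
  a : ∀ v ∈ I, ∀ w ∈ I, ∃ C, b.Le C (app F v) ∧ b.Le C (app F w) ∧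
    b.u C = b.u (app F v) ∩ b.u (app F w)

/-- kind less than `l` -/
def Kl (l : ℕ) (i : V) : Prop := ∃ e : ℕ, e < l ∧ kd i = nS e

/-- the axioms of base systems -/
structure BS.Ok (b : BS) (D : Cx) (κ : V) : Prop where
  l3 : 3 ≤ b.l
  sl : ∀ k, b.S k → 3 ≤ k ∧ k + 2 ≤ b.l
  nO : D.N b.Ob
  nU : D.N b.U
  nL : D.N b.le
  nR : D.N b.Rc
  nT : D.N b.tr
  nS : D.N b.Sc
  cs : ∀ B ∈ b.Ob, CS D (b.u B)
  rk : ∀ B ∈ b.Ob, ∀ i ∈ b.u B, ∀ e, b.S e → kd i = SF.nS e → vw i ⊆ b.u B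
  -- (b1)
  leO : ∀ C B, b.Le C B → C ∈ b.Ob ∧ B ∈ b.Ob ∧ b.u C ⊆ b.u B
  rfl : ∀ B ∈ b.Ob, b.Le B B
  trn : ∀ C B A, b.Le C B → b.Le B A → b.Le C A
  sub : ∀ C C' B, b.Le C B → b.Le C' B → b.u C ⊆ b.u C' → b.Le C C'
  -- (b2)
  meet : ∀ C C' B, b.Le C B → b.Le C' B → ∃ E, b.Le E B ∧ b.u E = b.u C ∩ b.u C'
  -- (b0)
  tr : ∀ B ∈ b.Ob, ∀ π ρ', Isl D b.l b.S π (b.u B) ρ' → b.T π B ∈ b.Ob ∧ b.u (b.T π B) = ρ' ∧
    b.T (inv π) (b.T π B) = B ∧ ∀ C, b.Le C B → b.Le (b.T (rst (b.u C) π) C) (b.T π B)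
  trI : ∀ B ∈ b.Ob, b.T (idm (b.u B)) B = B
  trS : ∀ B ∈ b.Ob, ∀ π ρ', Isl D b.l b.S π (b.u B) ρ' → ∀ G, D.Gn (b.u B) G → ∀ a x,
    b.Se B G a x ↔ b.Se (b.T π B) (gi D π ρ' G) a x
  -- (b3)
  bd : ∀ I F, b.Ag D I F → ∀ Z ∈ D.H, ∃ B ∈ b.Ob, (∀ v ∈ I, b.Ri (app F v) B) ∧
    ∀ k ∈ b.u B, (∀ v ∈ I, k ∉ b.u (app F v)) → Kl b.l k ∧ k ∉ Z
  rc : ∀ C B, b.Ri C B → b.Le C B ∧ ∀ C0, b.Le C0 C → b.Ri C0 B
  -- (b4)
  lb : ∀ B ∈ b.Ob, ∀ Y, D.N Y → Nam D.L (b.u B) Y → ∀ e : ℕ, e = 0 ∨ b.l ≤ e →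
    ∀ τ ∈ D.H, ∀ u ∈ D.H, ∀ Z ∈ D.H, ∃ B' i, b.Le B B' ∧ i ∈ b.u B' ∧ i ∉ b.u B ∧ i ∉ Z ∧
      kd i = SF.nS e ∧ tm i = τ ∧ vw i = u ∧ lS i ⊆ b.u B ∧
      (∀ G, D.Gn (b.u B') G → ev G (lZ i) = ev G Y) ∧
      ∀ k ∈ b.u B', k ∉ b.u B → k ≠ i → Kl b.l k ∧ k ∉ Z
  -- the set of the secured facts
  sc : ∀ B p a x, ZFSet.pair B (ZFSet.pair p (ZFSet.pair a x)) ∈ b.Sc →
    B ∈ b.Ob ∧ p ∈ D.P (b.u B) ∧ (D.N a ∧ Nam D.L (b.u B) a) ∧ D.N x ∧ Nam D.L (b.u B) x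
  -- (b5)
  ab : ∀ C B, b.Le C B → ∀ G, D.Gn (b.u B) G → ∀ a x, RR D (b.u C) G a → RR D (b.u C) G x →
    (b.Se C G a x ↔ b.Se B G a x)
  -- (b6)
  tru : ∀ F, b.Ch D κ F → ∀ G, D.Gn (b.un κ F) G →
    (∀ ξ ∈ κ, ∀ a x, RR D (b.u (app F ξ)) G a → RR D (b.u (app F ξ)) G x →
      (¬ SgH (D.W G) (b.l - 1) a x ↔ b.Se (app F ξ) G a x)) ∧
    (∀ z z', D.W G z → Rl z → D.W G z' → Rl z' →
      (Dk (D.W G) D.L (b.l - 3) (prl z z') ↔
        ∃ i ∈ b.un κ F, kd i = SF.nS b.l ∧ ev G (lZ i) = prl z z')) ∧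
    ∀ k, b.S k → UniH (D.W G) k

end SE.UZ
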