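import Pool.Agent.H72.UZ.Tow

/-!
# MP_f6fd33_lc: targets for the sections 7 (towers), 8 (the pass), 9 (the new base system)
-/

set_option linter.unusedVariables false

open Ordinal Order Set
open scoped ZFSet

namespace SE.UZ

open SF

/-! ## General facts -/

/-- F5: unions of increasing `κ`-chains of closed sets of labels -/
def T_F5 : Prop := ∀ (D : Cx) (κ : V), Amb D κ → ∀ R, D.N R →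
  (∀ ξ ∈ κ, app R ξ ∈ D.H ∧ Cld D.L (app R ξ)) →
  (∀ ξ ∈ κ, ∀ η ∈ κ, ξ ∈ η → app R ξ ⊆ app R η) → ∀ Λ, Λ = (⋃₀ (imS κ (app R)) : ZFSet) →
    Λ ∈ D.H ∧ Cld D.L Λ ∧ (∀ i, i ∈ Λ ↔ ∃ ξ ∈ κ, i ∈ app R ξ) ∧
    (∀ x, Ctbl D.N x → x ⊆ Λ → ∃ ξ ∈ κ, x ⊆ app R ξ) ∧
    (∀ Y, D.N Y → Nam D.L Λ Y → ∃ ξ ∈ κ, ∃ Y', D.N Y' ∧ Nam D.L (app R ξ) Y' ∧
      ∀ G, D.Gn Λ G → ev G Y' = ev G Y) ∧
    ∀ G, D.Gn Λ G → ∀ x, D.W G x → Rl x → ∃ ξ ∈ κ, RR D (app R ξ) G x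

/-- disjoint unions of index sets -/
noncomputable def sm (I J : V) : V := ZFSet.prod {nS 0} I ∪ ZFSet.prod {nS 1} J

/-- the function on `sm I J` given by the functions `F`, `F'` -/
noncomputable def sf (I J F F' : V) : V :=
  resS (sm I J) fun z => sel (fst z = nS 0) (app F (snd z)) (app F' (snd z))

/-- SM: disjoint unions -/
def T_SM : Prop :=
  (∀ I J z, z ∈ sm I J ↔ (∃ x ∈ I, z = ZFSet.pair (nS 0) x) ∨ ∃ x ∈ J, z = ZFSet.pair (nS 1) x) ∧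
  (∀ I J F F', (∀ x ∈ I, app (sf I J F F') (ZFSet.pair (nS 0) x) = app F x) ∧
    ∀ x ∈ J, app (sf I J F F') (ZFSet.pair (nS 1) x) = app F' x) ∧
  ∀ D : Cx, D.Ok → (∀ I J, D.N I → D.N J → D.N (sm I J)) ∧
    (∀ I J, I ∈ D.H → J ∈ D.H → sm I J ∈ D.H) ∧
    ∀ I J F F', D.N I → D.N J → D.N F → D.N F' → D.N (sf I J F F')

/-- RH: the stages `ρ_ξ` -/
def T_RH : Prop := ∀ (D : Cx) (κ : V) (b : BS), Amb D κ → b.Ok D κ →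
  (∀ ξ ∈ κ, b.Ls D (b.Wd D) (b.rho D ξ) ∧ (b.cn D (b.Wd D) (b.rho D ξ)).toZFSet = ξ ∧
    D.N (b.rho D ξ).toZFSet) ∧
  (∀ ξ ∈ κ, ∀ η ∈ κ, (ξ ∈ η ↔ b.rho D ξ < b.rho D η)) ∧
  (∀ ξ ∈ κ, ∀ e, b.Ls D (b.Wd D) e → e < b.rho D ξ → ∃ η ∈ ξ, e = b.rho D η) ∧
  (∀ ξ ∈ κ, ∀ e, b.Ls D (b.Wd D) e → (b.cn D (b.Wd D) e).toZFSet = ξ → e = b.rho D ξ) ∧
  (∀ ξ ∈ κ, ∀ τ, (τ ∈ ξ → b.sj D (b.Wd D) (b.rho D ξ) τ = b.rho D τ) ∧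
    (τ ∉ ξ → b.sj D (b.Wd D) (b.rho D ξ) τ = b.rho D ξ) ∧
    (τ ∈ insert ξ ξ → b.sj D (b.Wd D) (succ (b.rho D ξ)) τ = b.rho D τ)) ∧
  D.N (resS κ fun ξ => (b.rho D ξ).toZFSet)

/-- RC: recursion of length `κ` with choices in the ground model -/
def T_RC : Prop := ∀ (D : Cx) (κ : V), Amb D κ → ∀ A S1 S2 S3, D.N A → D.N S1 → D.N S2 → D.N S3 →
  (∀ ξ ∈ κ, ∀ f, D.N f → f = resS ξ (app f) →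
    (∀ η ∈ ξ, app f η ∈ A ∧ ZFSet.pair η (app f η) ∈ S1) →
    (∀ η ∈ ξ, ∀ ζ ∈ η, ZFSet.pair ζ (ZFSet.pair η (ZFSet.pair (app f ζ) (app f η))) ∈ S2) →
    (∀ η ∈ ξ, ∀ ζ ∈ η, η = insert ζ ζ →
      ZFSet.pair ζ (ZFSet.pair (app f ζ) (app f η)) ∈ S3) →
    ∃ q ∈ A, ZFSet.pair ξ q ∈ S1 ∧
      (∀ η ∈ ξ, ZFSet.pair η (ZFSet.pair ξ (ZFSet.pair (app f η) q)) ∈ S2) ∧
      ∀ η ∈ ξ, ξ = insert η η → ZFSet.pair η (ZFSet.pair (app f η) q) ∈ S3) →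
  ∃ T, D.N T ∧ T = resS κ (app T) ∧ (∀ ξ ∈ κ, app T ξ ∈ A ∧ ZFSet.pair ξ (app T ξ) ∈ S1) ∧
    (∀ ξ ∈ κ, ∀ η ∈ ξ, ZFSet.pair η (ZFSet.pair ξ (ZFSet.pair (app T η) (app T ξ))) ∈ S2) ∧
    ∀ ξ ∈ κ, ZFSet.pair ξ (ZFSet.pair (app T ξ) (app T (insert ξ ξ))) ∈ S3

/-- CHO: choice in the ground model -/
def T_CHO : Prop := ∀ D : Cx, D.Ok → ∀ I S, D.N I → D.N S →
  (∀ i ∈ I, ∃ x, ZFSet.pair i x ∈ S) →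
  ∃ f, D.N f ∧ f = resS I (app f) ∧ ∀ i ∈ I, ZFSet.pair i (app f i) ∈ S

/-! ## Sets of the ground model -/

/-- the relation `R` on the worlds of the stages `ρ_ξ` is given by a set of the ground model -/
def Inn (D : Cx) (κ A : V) (R : V → V → V → Prop) : Prop := ∃ S, D.N S ∧
  ∀ ξ ∈ κ, ∀ p ∈ A, ∀ q ∈ A, (ZFSet.pair ξ (ZFSet.pair p q) ∈ S ↔ R ξ p q)

/-- NT: the worlds of the stages `ρ_ξ` and the relations between them -/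
def T_NT : Prop := ∀ (D : Cx) (κ : V) (b : BS), Amb D κ → b.Ok D κ → ∃ A, D.N A ∧
  (∀ p, p ∈ A ↔ ∃ ξ ∈ κ, b.Wr D ξ p) ∧ Inn D κ A (fun ξ p q => b.Wr D ξ q) ∧
  Inn D κ A (fun ξ p q => b.Lr D ξ p q) ∧ Inn D κ A (fun ξ p q => b.R1 D ξ p q) ∧
  Inn D κ A (fun ξ p q => b.R2 D ξ p q) ∧ Inn D κ A (fun ξ p q => b.R3 D ξ p q) ∧
  Inn D κ A (fun ξ p q => b.R4 D p q)

/-! ## Section 7: towers -/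

/-- W0: cores, labels and entries of a tower -/
def T_W0 : Prop := ∀ (D : Cx) (κ : V) (b : BS), Amb D κ → b.Ok D κ → ∀ T, b.Tw D κ T →
  b.ut κ T ∈ D.H ∧ CS D (b.ut κ T) ∧
  (∀ i, i ∈ b.ut κ T ↔ ∃ ξ ∈ κ, i ∈ b.u (tK T ξ)) ∧
  (∀ ξ ∈ κ, b.Obs (tK T ξ) ∧ b.Wd D (b.rho D ξ) (tK T ξ) (tH T ξ) ∧
    b.u (tK T ξ) ⊆ b.ut κ T) ∧
  (∀ ξ ∈ κ, ∀ η ∈ κ, ξ ⊆ η → b.Le (tK T ξ) (tK T η) ∧ b.u (tK T ξ) ⊆ b.u (tK T η)) ∧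
  ∀ ρ, D.N ρ → Cld D.L ρ → b.ut κ T ⊆ ρ → ∀ G, D.Gn ρ G →
    (∀ x, RR D (b.ut κ T) G x ↔ ∃ ξ ∈ κ, RR D (b.u (tK T ξ)) G x) ∧
    (∀ ξ ∈ κ, ∀ η ∈ κ, ξ ⊆ η → (∀ x, RR D (b.u (tK T ξ)) G x → RR D (b.u (tK T η)) G x) ∧
      ∀ X y e, (Ent (tH T ξ) G X y e ↔
        RR D (b.u (tK T ξ)) G X ∧ Ent (tH T η) G X y e ∧ e < b.rho D ξ)) ∧
    (∀ ξ ∈ κ, ∀ X y e, Ent (tH T ξ) G X y e →
      RR D (b.u (tK T ξ)) G X ∧ RR D (b.u (tK T ξ)) G y ∧ e < b.rho D ξ) ∧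
    (∀ X y y', Ett κ T G X y → Ett κ T G X y' → y = y') ∧
    (∀ X, Dct κ T G X ↔ ∃ y, Ett κ T G X y) ∧
    ∀ ξ ∈ κ, ∀ X, RR D (b.u (tK T ξ)) G X → Dct κ T G X →
      ∃ ζ ∈ κ, ξ ⊆ ζ ∧ Dcc (tH T ζ) G X

/-- W0n: names over the labels of a tower -/
def T_W0n : Prop := ∀ (D : Cx) (κ : V) (b : BS), Amb D κ → b.Ok D κ → ∀ T, b.Tw D κ T →
  ∀ Y, D.N Y → Nam D.L (b.ut κ T) Y → ∃ ξ ∈ κ, ∃ Y', D.N Y' ∧ Nam D.L (b.u (tK T ξ)) Y' ∧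
    ∀ G, D.Gn (b.ut κ T) G → ev G Y' = ev G Y

/-- W1: the order of towers -/
def T_W1 : Prop := ∀ (D : Cx) (κ : V) (b : BS), Amb D κ → b.Ok D κ →
  (∀ T, b.Tw D κ T → b.TLe D κ T T) ∧
  (∀ A B C, b.TLe D κ A B → b.TLe D κ B C → b.TLe D κ A C) ∧
  (∀ C C' T, b.TLe D κ C T → b.TLe D κ C' T → b.ut κ C ⊆ b.ut κ C' → b.TLe D κ C C') ∧
  (∀ C T, b.TLe D κ C T → b.ut κ C ⊆ b.ut κ T ∧ ∀ ξ ∈ κ, b.Le (tK C ξ) (tK T ξ)) ∧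
  ∀ C T, b.TLe D κ C T → ∀ ρ, D.N ρ → Cld D.L ρ → b.ut κ T ⊆ ρ → ∀ G, D.Gn ρ G →
    ∀ X, RR D (b.ut κ C) G X → (Dct κ C G X ↔ Dct κ T G X) ∧
      ∀ y, Ett κ C G X y ↔ Ett κ T G X y

/-- W2a: meets of worlds -/
def T_W2a : Prop := ∀ (D : Cx) (κ : V) (b : BS), Amb D κ → b.Ok D κ → ∀ σ : Ordinal.{0},
  D.N σ.toZFSet → ∀ C hC C' hC' B h, b.Wd D σ C hC → b.Wd D σ C' hC' → b.Wd D σ B h →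
    b.LW D σ C hC B h → b.LW D σ C' hC' B h →
    ∃ E hE, b.Wd D σ E hE ∧ b.u E = b.u C ∩ b.u C' ∧ b.LW D σ E hE B h ∧
      b.LW D σ E hE C hC ∧ b.LW D σ E hE C' hC'

/-- W2: meets of towers -/
def T_W2 : Prop := ∀ (D : Cx) (κ : V) (b : BS), Amb D κ → b.Ok D κ → ∀ C C' T,
  b.TLe D κ C T → b.TLe D κ C' T →
    ∃ E, b.TLe D κ E T ∧ b.ut κ E = b.ut κ C ∩ b.ut κ C'

/-- W3a: restrictions of isomorphisms of towers to the cores -/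
def T_W3a : Prop := ∀ (D : Cx) (κ : V) (b : BS), Amb D κ → b.Ok D κ → ∀ T, b.Tw D κ T →
  ∀ π ρ', Isl D (b.l + 2) b.S' π (b.ut κ T) ρ' → ∀ ξ ∈ κ, ∀ π', π' = rst (b.u (tK T ξ)) π →
    Isl D b.l b.S π' (b.u (tK T ξ)) (im π (b.u (tK T ξ))) ∧ b.Obs (b.T π' (tK T ξ)) ∧
    (∀ j ∈ b.u (tK T ξ), b.Co j → b.Co (app π j) ∧ tm (app π j) = tm j ∧
      vw (app π j) = im π (vw j)) ∧
    b.Wd D (b.rho D ξ) (b.T π' (tK T ξ)) (mvh π (tH T ξ))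

/-- W3: images of towers -/
def T_W3 : Prop := ∀ (D : Cx) (κ : V) (b : BS), Amb D κ → b.Ok D κ → ∀ T, b.Tw D κ T →
  ∀ π ρ', Isl D (b.l + 2) b.S' π (b.ut κ T) ρ' →
    b.Tw D κ (b.tT κ π T) ∧ b.ut κ (b.tT κ π T) = ρ' ∧ b.tT κ (inv π) (b.tT κ π T) = T ∧
    ∀ G, D.Gn (b.ut κ T) G → ∀ X, Dct κ (b.tT κ π T) (gi D π ρ' G) X ↔ Dct κ T G X

/-- W3b: images of towers and the order -/
def T_W3b : Prop := ∀ (D : Cx) (κ : V) (b : BS), Amb D κ → b.Ok D κ →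
  (∀ T, b.Tw D κ T → b.tT κ (idm (b.ut κ T)) T = T) ∧
  ∀ C T, b.TLe D κ C T → ∀ π ρ', Isl D (b.l + 2) b.S' π (b.ut κ T) ρ' →
    b.TLe D κ (b.tT κ (rst (b.ut κ C) π) C) (b.tT κ π T)

end SE.UZ
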