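import Pool.Agent.H72.UZ.Defs

/-!
# MP_f6fd33_lc: the process at level `l` (functor P): histories, worlds, types, stages
-/

set_option linter.unusedVariables false

open Ordinal Order Set
open scoped ZFSet

namespace SE.UZ

open SF

/-! ## Histories -/

/-- element of a history -/
noncomputable def ht (q X Y e : V) : V := ZFSet.pair q (ZFSet.pair X (ZFSet.pair Y e))

/-- `h` is a history over `ρ` with stages less than `σ` -/
structure His (D : Cx) (ρ h : V) (σ : Ordinal.{0}) : Prop where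
  n : D.N h
  m : ∀ z ∈ h, ∃ q ∈ D.P ρ, ∃ X Y, ∃ e < σ, (D.N X ∧ Nam D.L ρ X) ∧ (D.N Y ∧ Nam D.L ρ Y) ∧
    z = ht q X Y e.toZFSet

/-- `(X, y)` is an entry of stage `e` -/
def Ent (h G X y : V) (e : Ordinal.{0}) : Prop := ∃ q ∈ G, ∃ X' Y', ht q X' Y' e.toZFSet ∈ h ∧
  ev G X' = X ∧ ev G Y' = y

/-- the part of `h` with stages less than `e` -/
noncomputable def hr (h : V) (e : Ordinal.{0}) : V := h.sep fun z => snd (snd (snd z)) ∈ e.toZFSet

/-- `h` (over `ρ`) is local on `ρ0` below `σ` -/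
def Loc (D : Cx) (ρ h ρ0 : V) (σ : Ordinal.{0}) : Prop := ∃ h0, His D ρ0 h0 σ ∧
  ∀ G, D.Gn ρ G → ∀ X, RR D ρ0 G X → ∀ y e, (Ent h0 G X y e ↔ Ent h G X y e ∧ e < σ)

/-! ## Worlds -/

/-- coding label -/
def BS.Co (b : BS) (j : V) : Prop := kd j = nS b.l

/-- closed objects -/
structure BS.Obs (b : BS) (B : V) : Prop where
  o : B ∈ b.Ob
  v : ∀ j ∈ b.u B, b.Co j → lS j ⊆ vw j ∧ (∃ A, b.Le A B ∧ b.u A = vw j) ∧
    ∀ k ∈ vw j, b.Co k → vw k ⊆ vw j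

/-- a world (with stages less than `σ`) -/
structure BS.Wo (b : BS) (D : Cx) (σ : Ordinal.{0}) (B h : V) : Prop where
  o : b.Obs B
  hs : His D (b.u B) h σ
  f : ∀ G, D.Gn (b.u B) G → ∀ X y y' e e', Ent h G X y e → Ent h G X y' e' → y = y' ∧ e = e'

/-- `(C, h0)` is a `σ`-face of `(B, h)` -/
structure BS.LW (b : BS) (D : Cx) (σ : Ordinal.{0}) (C h0 B h : V) : Prop where
  le : b.Le C B
  e : ∀ G, D.Gn (b.u B) G → ∀ X, RR D (b.u C) G X → ∀ y e,
    (Ent h0 G X y e ∧ e < σ ↔ Ent h G X y e ∧ e < σ)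

/-- the pair `(X, y)` is killed -/
def BS.Kil (b : BS) (D : Cx) (B G X y : V) : Prop :=
  ∃ a x, Rl a ∧ Rl x ∧ X = prl (kc 0) (prl a x) ∧ b.Ss D B G a (prl x y)

/-- classes of worlds, for all stages -/
abbrev Fam := Ordinal.{0} → V → V → Prop

section

variable (b : BS) (D : Cx) (F : Fam)

/-- `(B', h', G')` is a `σ`-extension of `(B, h, G)` -/
structure BS.Ew (σ : Ordinal.{0}) (B h G B' h' G' : V) : Prop where
  w : F σ B' h'
  le : b.LW D σ B h B' h'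
  g : D.Gn (b.u B') G'
  r : gs G' (b.u B) = G

/-- killable -/
def BS.Kb (σ : Ordinal.{0}) (B h G X y : V) : Prop :=
  ∃ B' h' G', b.Ew D F σ B h G B' h' G' ∧ b.Kil D B' G' X y

/-- type N: there are new robust candidates -/
def BS.Nn (σ : Ordinal.{0}) (B h G X : V) : Prop :=
  ∃ B' h' G' y, b.Ew D F σ B h G B' h' G' ∧ RR D (b.u B') G' y ∧ ¬ RR D (b.u B) G' y ∧
    ¬ b.Kb D F σ B' h' G' X y

/-- rigid -/
def BS.Rg (σ : Ordinal.{0}) (B h G X : V) : Prop :=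
  ¬ b.Nn D F σ B h G X ∧ ∃ y, RR D (b.u B) G y ∧ ¬ b.Kb D F σ B h G X y

/-- `X` is decided -/
def Dcc (h G X : V) : Prop := ∃ y e, Ent h G X y e

/-- `σ` is an L-stage -/
def BS.Ls (σ : Ordinal.{0}) : Prop := ∀ B h, F σ B h → ∀ G, D.Gn (b.u B) G →
  ∀ X, RR D (b.u B) G X → ¬ Dcc h G X → ¬ b.Rg D F σ B h G X

/-- the number of L-stages less than `e` -/
noncomputable def BS.cn (e : Ordinal.{0}) : Ordinal.{0} :=
  ⨆ d : {d : Iio e // b.Ls D F d.1}, succ (BS.cn d.1.1)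
termination_by e
decreasing_by exact d.1.2

/-- `e` is the L-stage with the number `ζ` -/
def BS.Rho (ζ e : Ordinal.{0}) : Prop := b.Ls D F e ∧ b.cn D F e = ζ

/-- the minimum of `σ` and the L-stage with the number `τ` -/
noncomputable def BS.sj (σ : Ordinal.{0}) (τ : V) : Ordinal.{0} :=
  sInf {e | e = σ ∨ (b.Ls D F e ∧ (b.cn D F e).toZFSet = τ)}

/-- the pair `(X, y)` is seen by the coding label `j` -/
def Sn (D : Cx) (G X y j : V) : Prop := RR D (vw j) G X ∧ RR D (vw j) G y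

/-- `X` is protected in `B`: it is a promise of a label of kind `l + 2` -/
def BS.Pt (B G X : V) : Prop := ∃ i ∈ b.u B, kd i = nS (b.l + 2) ∧ X = prl (kc 1) (prm G i)

/-- the conditions for the worlds of stage `σ` -/
structure BS.Iw (σ : Ordinal.{0}) (B h : V) : Prop where
  wo : b.Wo D σ B h
  w0 : ∀ j ∈ b.u B, b.Co j → Loc D (b.u B) h (vw j) (b.sj D F σ (tm j))
  w1 : ∀ j ∈ b.u B, b.Co j → ∀ G, D.Gn (b.u B) G → ∀ X y e, Ent h G X y e →
    ev G (lZ j) ≠ prl X y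
  w2 : ∀ e < σ, ¬ b.Ls D F e → ∀ G, D.Gn (b.u B) G → ∀ X, RR D (b.u B) G X →
    ((∃ y, Ent h G X y e) ↔ ¬ Dcc (hr h e) G X ∧ b.Rg D F e B (hr h e) G X)
  w2' : ∀ e < σ, ∀ G, D.Gn (b.u B) G → ∀ X y, Ent h G X y e → ¬ b.Kb D F e B (hr h e) G X y
  w3 : ∀ e < σ, b.Ls D F e → ∀ G, D.Gn (b.u B) G → ∀ X y, Ent h G X y e →
    ¬ b.Pt B G X ∧ ∀ j ∈ b.u B, b.Co j → tm j ∈ (succ (b.cn D F e)).toZFSet → ¬ Sn D G X y j

end

/-- the class of the worlds of stage `σ` -/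
def BS.Wd (b : BS) (D : Cx) (σ : Ordinal.{0}) : V → V → Prop :=
  b.Iw D (fun e B h => ∃ _ : e < σ, BS.Wd b D e B h) σ
termination_by σ
decreasing_by assumption

end SE.UZ
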