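import Pool.Agent.H72.UZ.TarW

/-!
# MP_f6fd33_lc: targets for section 8 (the pass)
-/

set_option linter.unusedVariables false

open Ordinal Order Set
open scoped ZFSet

namespace SE.UZ

open SF

/-! ## The data of the pass -/

/-- the data of the pass: `F` is an agreeing family of towers on `I`; `Z` is a set to avoid; if
`ξ0 ∈ κ` the world `w0` of stage `ρ_{ξ0}` extends the core `ξ0` of the tower `app F v0` -/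
structure BS.Pas (b : BS) (D : Cx) (κ I F Z ξ0 v0 w0 : V) : Prop where
  h : I ∈ D.H
  n : D.N F
  z : Z ∈ D.H
  t : ∀ v ∈ I, b.Tw D κ (app F v)
  a : ∀ v ∈ I, ∀ v' ∈ I, ∃ C, b.TLe D κ C (app F v) ∧ b.TLe D κ C (app F v') ∧
    b.ut κ C = b.ut κ (app F v) ∩ b.ut κ (app F v')
  v : ξ0 ∈ κ → v0 ∈ I ∧ b.Wr D ξ0 w0 ∧ b.Lr D ξ0 (app (app F v0) ξ0) w0 ∧
    (∀ j ∈ b.u (fst w0), b.Co j → tm j ∈ ξ0) ∧
    ∀ i ∈ b.u (fst w0), i ∉ b.u (tK (app F v0) ξ0) → ∀ v ∈ I, i ∉ b.ut κ (app F v)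

/-- `q` is a good core with the number `ξ` -/
structure BS.Pg (b : BS) (D : Cx) (κ I F Z ξ0 v0 w0 ξ q : V) : Prop where
  w : b.Wr D ξ q
  tm : ∀ j ∈ b.u (fst q), b.Co j → tm j ∈ ξ
  le : ∀ v ∈ I, b.Lr D ξ (app (app F v) ξ) q
  i : ∀ v ∈ I, b.u (fst q) ∩ b.ut κ (app F v) = b.u (tK (app F v) ξ)
  i0 : ξ0 ∈ κ → ξ ⊆ ξ0 → b.u (fst q) ∩ b.u (fst w0) = b.u (tK (app F v0) ξ)
  c0 : ξ0 ∈ κ → ξ0 ∈ ξ → b.u (fst w0) ⊆ b.u (fst q)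
  nl : ∀ i ∈ b.u (fst q), (∀ v ∈ I, i ∉ b.ut κ (app F v)) →
    ¬ (ξ0 ∈ κ ∧ i ∈ b.u (fst w0)) → Kl (b.l + 1) i ∧ i ∉ Z

/-- the relation between the cores `η ∈ ξ` -/
structure BS.Pr2 (b : BS) (D : Cx) (η ξ p q : V) : Prop where
  le : b.Lr D η p q
  t1 : ∀ ζ, η ⊆ ζ → ζ ∈ ξ → b.R1 D ζ p q

/-- the relation between the cores `ξ`, `ξ + 1` -/
structure BS.Pr3 (b : BS) (D : Cx) (ξ p q : V) : Prop where
  r0 : b.Ri (fst p) (fst q)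
  t2 : b.R2 D ξ p q
  r1 : b.R3 D ξ p q
  r4 : b.R4 D p q

/-- the first part of the construction: `f` is a function on `ξ` -/
structure BS.Pf (b : BS) (D : Cx) (κ I F Z ξ0 v0 w0 ξ f : V) : Prop where
  n : D.N f
  e : f = resS ξ (app f)
  g : ∀ η ∈ ξ, b.Pg D κ I F Z ξ0 v0 w0 η (app f η)
  r : ∀ η ∈ ξ, ∀ ζ ∈ η, b.Pr2 D ζ η (app f ζ) (app f η)
  s : ∀ η ∈ ξ, insert η η ∈ ξ → b.Pr3 D η (app f η) (app f (insert η η))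

/-! ## The parts (step 1) -/

/-- a part over `q = (K, h)`: a world `p'` of stage `ρ_ξ` -/
structure BS.Prt (b : BS) (D : Cx) (ξ Z q p' : V) : Prop where
  w : b.Wr D ξ p'
  le : b.Lr D ξ q p'
  tm : ∀ j ∈ b.u (fst p'), b.Co j → tm j ∈ insert ξ ξ
  nl : ∀ i ∈ b.u (fst p'), i ∉ b.u (fst q) → Kl (b.l + 1) i ∧ i ∉ Z

/-- the sets of tasks: `E` is a set of triples `(t, (p', r))`, `p'` a world of stage `ρ_ξ` over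
`q`, `r` a condition of `p'` -/
structure BS.Tsk (b : BS) (D : Cx) (ξ q J E : V) : Prop where
  h : J ∈ D.H
  n : D.N E
  e : ∀ z ∈ E, ∃ t ∈ J, ∃ p' r, z = ZFSet.pair t (ZFSet.pair p' r) ∧ b.Wr D ξ p' ∧
    b.Lr D ξ q p' ∧ r ∈ D.P (b.u (fst p'))

/-- `p''` is a copy of `p'` over `q` with the isomorphism `π` -/
structure BS.Cpw (b : BS) (D : Cx) (ξ q π p' p'' : V) : Prop where
  i : Isl D b.l b.S π (b.u (fst p')) (b.u (fst p''))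
  d : ∀ i ∈ b.u (fst q), app π i = i
  c : ∀ j ∈ b.u (fst p'), b.Co j → vw (app π j) = im π (vw j) ∧
    b.sj D (b.Wd D) (b.rho D ξ) (tm (app π j)) = b.sj D (b.Wd D) (b.rho D ξ) (tm j)
  e : p'' = ZFSet.pair (b.T π (fst p')) (mvh π (snd p'))
  w : b.Wr D ξ p''

/-- X1: generic families of disjoint copies -/
def T_X1 : Prop := ∀ (D : Cx) (κ : V) (b : BS), Amb D κ → b.Ok D κ → ∀ ξ ∈ κ, ∀ q,
  b.Wr D ξ q → (∀ j ∈ b.u (fst q), b.Co j → tm j ∈ insert ξ ξ) → ∀ J E, b.Tsk D ξ q J E →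
  ∀ Z ∈ D.H, ∃ I1 F1, I1 ∈ D.H ∧ D.N F1 ∧ (∀ u ∈ I1, b.Prt D ξ Z q (app F1 u)) ∧
    (∀ u ∈ I1, ∀ u' ∈ I1, u ≠ u' →
      b.u (fst (app F1 u)) ∩ b.u (fst (app F1 u')) = b.u (fst q)) ∧
    ∀ ρ, D.N ρ → Cld D.L ρ → (∀ u ∈ I1, b.u (fst (app F1 u)) ⊆ ρ) → b.u (fst q) ⊆ ρ →
      ∀ G, D.Gn ρ G → ∀ t p' r, ZFSet.pair t (ZFSet.pair p' r) ∈ E →
        rst (b.u (fst q)) r ∈ G → ∃ p1 r1, ZFSet.pair t (ZFSet.pair p1 r1) ∈ E ∧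
          ∃ u ∈ I1, ∃ π, b.Cpw D ξ q π p1 (app F1 u) ∧ mv π r1 ∈ G

/-- the properties (i), (ii), (v) of the family of parts -/
structure BS.Gnr (b : BS) (D : Cx) (ξ q I1 F1 ρ G : V) : Prop where
  i : ∀ X, RR D (b.u (fst q)) G X → ¬ Dcc (snd q) G X →
    b.Nn D (b.Wd D) (b.rho D ξ) (fst q) (snd q) (gs G (b.u (fst q))) X →
    ∃ u ∈ I1, ∃ y, RR D (b.u (fst (app F1 u))) G y ∧ ¬ RR D (b.u (fst q)) G y ∧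
      ¬ b.Kb D (b.Wd D) (b.rho D ξ) (fst (app F1 u)) (snd (app F1 u))
        (gs G (b.u (fst (app F1 u)))) X y ∧
      ∀ j ∈ b.u (fst (app F1 u)), b.Co j → ¬ Sn D G X y j
  ii : ∀ X y, RR D (b.u (fst q)) G X → RR D (b.u (fst q)) G y →
    b.Kb D (b.Wd D) (b.rho D ξ) (fst q) (snd q) (gs G (b.u (fst q))) X y →
    ∃ u ∈ I1, b.Kil D (fst (app F1 u)) (gs G (b.u (fst (app F1 u)))) X y
  v : ∀ X y, RR D (b.u (fst q)) G X → RR D (b.u (fst q)) G y → (¬ ∃ e, Ent (snd q) G X y e) →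
    ∃ u ∈ I1, ∃ j ∈ b.u (fst (app F1 u)), b.Co j ∧ ev G (lZ j) = prl X y

/-- the tasks (i): names `X` over `q`; `r` forces that there is a new unseen robust candidate -/
def BS.E1 (b : BS) (D : Cx) (ξ q z : V) : Prop := ∃ X p' r, (D.N X ∧ Nam D.L (b.u (fst q)) X) ∧
  b.Wr D ξ p' ∧ b.Lr D ξ q p' ∧ r ∈ D.P (b.u (fst p')) ∧
  z = ZFSet.pair X (ZFSet.pair p' r) ∧ ∃ Y, (D.N Y ∧ Nam D.L (b.u (fst p')) Y) ∧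
    ∀ G, D.Gn (b.u (fst p')) G → r ∈ G → ¬ RR D (b.u (fst q)) G (ev G Y) ∧
      ¬ b.Kb D (b.Wd D) (b.rho D ξ) (fst p') (snd p') G (ev G X) (ev G Y) ∧
      ∀ j ∈ b.u (fst p'), b.Co j → ¬ Sn D G (ev G X) (ev G Y) j

/-- the tasks (ii): pairs of names `X`, `Y` over `q`; `r` forces that `(X, Y)` is killed -/
def BS.E2 (b : BS) (D : Cx) (ξ q z : V) : Prop := ∃ X Y p' r,
  (D.N X ∧ Nam D.L (b.u (fst q)) X) ∧ (D.N Y ∧ Nam D.L (b.u (fst q)) Y) ∧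
  b.Wr D ξ p' ∧ b.Lr D ξ q p' ∧ r ∈ D.P (b.u (fst p')) ∧
  z = ZFSet.pair (ZFSet.pair X Y) (ZFSet.pair p' r) ∧
    ∀ G, D.Gn (b.u (fst p')) G → r ∈ G → b.Kil D (fst p') G (ev G X) (ev G Y)

/-- the tasks (v): pairs of names `X`, `Y` over `q`; `p'` codes `(X, Y)` if it is not an entry -/
def BS.E3 (b : BS) (D : Cx) (ξ q z : V) : Prop := ∃ X Y p',
  (D.N X ∧ Nam D.L (b.u (fst q)) X) ∧ (D.N Y ∧ Nam D.L (b.u (fst q)) Y) ∧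
  b.Wr D ξ p' ∧ b.Lr D ξ q p' ∧
  z = ZFSet.pair (ZFSet.pair X Y) (ZFSet.pair p' ∅) ∧ ∃ j ∈ b.u (fst p'), b.Co j ∧
    ∀ G, D.Gn (b.u (fst p')) G → (¬ ∃ e, Ent (snd q) G (ev G X) (ev G Y) e) →
      ev G (lZ j) = prl (ev G X) (ev G Y)

/-- X2: the sets of tasks are in the ground model -/
def T_X2 : Prop := ∀ (D : Cx) (κ : V) (b : BS), Amb D κ → b.Ok D κ → ∀ ξ ∈ κ, ∀ q,
  b.Wr D ξ q → (∃ E, D.N E ∧ ∀ z, z ∈ E ↔ b.E1 D ξ q z) ∧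
    (∃ E, D.N E ∧ ∀ z, z ∈ E ↔ b.E2 D ξ q z) ∧ ∃ E, D.N E ∧ ∀ z, z ∈ E ↔ b.E3 D ξ q z

/-- X3: a coding label for a pair which is not an entry -/
def T_X3 : Prop := ∀ (D : Cx) (κ : V) (b : BS), Amb D κ → b.Ok D κ → ∀ ξ ∈ κ, ∀ q,
  b.Wr D ξ q → (∀ j ∈ b.u (fst q), b.Co j → tm j ∈ ξ) →
  ∀ X Y, (D.N X ∧ Nam D.L (b.u (fst q)) X) → (D.N Y ∧ Nam D.L (b.u (fst q)) Y) →
    ∃ p', b.E3 D ξ q (ZFSet.pair (ZFSet.pair X Y) (ZFSet.pair p' ∅))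

/-- X4: the family of parts -/
def T_X4 : Prop := ∀ (D : Cx) (κ : V) (b : BS), Amb D κ → b.Ok D κ → ∀ ξ ∈ κ, ∀ q,
  b.Wr D ξ q → (∀ j ∈ b.u (fst q), b.Co j → tm j ∈ ξ) → ∀ Z ∈ D.H,
  ∃ I1 F1, I1 ∈ D.H ∧ D.N F1 ∧ (∀ u ∈ I1, b.Prt D ξ Z q (app F1 u)) ∧
    (∀ u ∈ I1, ∀ u' ∈ I1, u ≠ u' →
      b.u (fst (app F1 u)) ∩ b.u (fst (app F1 u')) = b.u (fst q)) ∧
    ∀ ρ, D.N ρ → Cld D.L ρ → (∀ u ∈ I1, b.u (fst (app F1 u)) ⊆ ρ) → b.u (fst q) ⊆ ρ →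
      ∀ G, D.Gn ρ G → b.Gnr D ξ q I1 F1 ρ G

/-! ## Amalgamation of compatible worlds -/

/-- the worlds `(B, h)`, `(B', h')` of the stages `s`, `s'` are compatible: they have a common face
with the common labels -/
def BS.Cmt (b : BS) (D : Cx) (s : Ordinal.{0}) (B h : V) (s' : Ordinal.{0}) (B' h' : V) : Prop :=
  ∃ C h0 θ, b.u C = b.u B ∩ b.u B' ∧ His D (b.u C) h0 θ ∧ b.LW D (min s s') C h0 B h ∧
    b.LW D (min s s') C h0 B' h'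

/-- Y1: compatible families: bounds, the condition (a1) -/
def T_Y1 : Prop := ∀ (D : Cx) (κ : V) (b : BS), Amb D κ → b.Ok D κ →
  ∀ (I B h : V) (s : V → Ordinal.{0}), D.N I → D.N B → D.N h →
    (∀ v ∈ I, b.Wd D (s v) (app B v) (app h v)) →
    (∀ v ∈ I, ∀ w ∈ I, b.Cmt D (s v) (app B v) (app h v) (s w) (app B w) (app h w)) →
    (I ∈ D.H → ∀ Z ∈ D.H, ∃ Bp, b.Obs Bp ∧ (∀ v ∈ I, b.Ri (app B v) Bp) ∧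
      ∀ k ∈ b.u Bp, (∀ v ∈ I, k ∉ b.u (app B v)) → Kl b.l k ∧ k ∉ Z) ∧
    ∀ Bp, b.Obs Bp → (∀ v ∈ I, b.Le (app B v) Bp) → ∀ G, D.Gn (b.u Bp) G →
      ∀ v ∈ I, ∀ w ∈ I, ∀ X, RR D (b.u (app B v) ∩ b.u (app B w)) G X → ∀ y e,
        e < s v → e < s w → (Ent (app h v) G X y e ↔ Ent (app h w) G X y e)

/-- Y2: compatibility of the cores of two towers of the family (`C` is the common tower) -/
def T_Y2 : Prop := ∀ (D : Cx) (κ : V) (b : BS), Amb D κ → b.Ok D κ →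
  ∀ I F Z ξ0 v0 w0, b.Pas D κ I F Z ξ0 v0 w0 → ∀ v ∈ I, ∀ v' ∈ I, ∀ ξ ∈ κ,
    b.Cmt D (b.rho D ξ) (tK (app F v) ξ) (tH (app F v) ξ)
      (b.rho D ξ) (tK (app F v') ξ) (tH (app F v') ξ) ∧
    (∀ i, i ∈ b.u (tK (app F v) ξ) → i ∈ b.ut κ (app F v') → i ∈ b.u (tK (app F v') ξ)) ∧
    ∀ ρ, D.N ρ → Cld D.L ρ → b.u (tK (app F v) ξ) ⊆ ρ → b.u (tK (app F v') ξ) ⊆ ρ →
      ∀ G, D.Gn ρ G → ∀ X, RR D (b.u (tK (app F v) ξ)) G X → RR D (b.u (tK (app F v') ξ)) G X →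
        ∀ y e, (Ent (tH (app F v) ξ) G X y e ↔ Ent (tH (app F v') ξ) G X y e)

/-- the family of parts -/
structure BS.Pts (b : BS) (D : Cx) (ξ Z q I1 F1 : V) : Prop where
  h : I1 ∈ D.H
  n : D.N F1
  p : ∀ u ∈ I1, b.Prt D ξ Z q (app F1 u)
  d : ∀ u ∈ I1, ∀ u' ∈ I1, u ≠ u' →
    b.u (fst (app F1 u)) ∩ b.u (fst (app F1 u')) = b.u (fst q)

/-- the set `Z'` contains all labels which have to be avoided -/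
structure BS.Av (b : BS) (D : Cx) (κ I F Z ξ0 w0 Z' : V) : Prop where
  h : Z' ∈ D.H
  z : Z ⊆ Z'
  t : ∀ v ∈ I, b.ut κ (app F v) ⊆ Z'
  w : ξ0 ∈ κ → b.u (fst w0) ⊆ Z'

/-- step 2: the bound `u` of the parts and of the cores `ξ + 1` -/
structure BS.Bnd (b : BS) (D : Cx) (κ I F ξ0 w0 Z' ξ q I1 F1 u : V) : Prop where
  w : b.Wr D ξ u
  tm : ∀ j ∈ b.u (fst u), b.Co j → tm j ∈ insert ξ ξ
  lq : b.Lr D ξ q u ∧ b.Ri (fst q) (fst u)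
  lp : ∀ x ∈ I1, b.Lr D ξ (app F1 x) u
  lt : ∀ v ∈ I, b.Lr D ξ (app (app F v) (insert ξ ξ)) u
  lv : ξ0 ∈ κ → ξ0 = ξ → b.Lr D ξ w0 u
  m : ∀ i ∈ b.u (fst u), i ∈ b.u (fst q) ∨ (∃ x ∈ I1, i ∈ b.u (fst (app F1 x))) ∨
    (∃ v ∈ I, i ∈ b.u (tK (app F v) (insert ξ ξ))) ∨ (ξ0 ∈ κ ∧ ξ0 = ξ ∧ i ∈ b.u (fst w0)) ∨
    (Kl b.l i ∧ i ∉ Z')

/-- Y3: step 2, pairwise compatibility -/
def T_Y3 : Prop := ∀ (D : Cx) (κ : V) (b : BS), Amb D κ → b.Ok D κ →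
  ∀ I F Z ξ0 v0 w0, b.Pas D κ I F Z ξ0 v0 w0 → ∀ ξ ∈ κ, ∀ q, b.Pg D κ I F Z ξ0 v0 w0 ξ q →
    ∀ Z', b.Av D κ I F Z ξ0 w0 Z' → ∀ I1 F1, b.Pts D ξ Z' q I1 F1 →
    ∀ r, r = b.rho D ξ →
      (∀ x ∈ I1, b.Cmt D r (fst q) (snd q) r (fst (app F1 x)) (snd (app F1 x)) ∧
        (∀ x' ∈ I1, b.Cmt D r (fst (app F1 x)) (snd (app F1 x)) r (fst (app F1 x'))
          (snd (app F1 x'))) ∧
        (∀ v ∈ I, b.Cmt D r (fst (app F1 x)) (snd (app F1 x)) r (tK (app F v) (insert ξ ξ))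
          (hr (tH (app F v) (insert ξ ξ)) r)) ∧
        (ξ0 ∈ κ → ξ0 = ξ →
          b.Cmt D r (fst (app F1 x)) (snd (app F1 x)) r (fst w0) (snd w0))) ∧
      (∀ v ∈ I, b.Cmt D r (fst q) (snd q) r (tK (app F v) (insert ξ ξ))
          (hr (tH (app F v) (insert ξ ξ)) r) ∧
        (∀ v' ∈ I, b.Cmt D r (tK (app F v) (insert ξ ξ)) (hr (tH (app F v) (insert ξ ξ)) r) r
          (tK (app F v') (insert ξ ξ)) (hr (tH (app F v') (insert ξ ξ)) r)) ∧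
        (ξ0 ∈ κ → ξ0 = ξ → b.Cmt D r (fst w0) (snd w0) r (tK (app F v) (insert ξ ξ))
          (hr (tH (app F v) (insert ξ ξ)) r))) ∧
      (ξ0 ∈ κ → ξ0 = ξ → b.Cmt D r (fst q) (snd q) r (fst w0) (snd w0)) ∧
      (∀ v ∈ I, b.u (fst q) ∩ b.u (tK (app F v) (insert ξ ξ)) = b.u (tK (app F v) ξ)) ∧
      (∀ x ∈ I1, ∀ v ∈ I, b.u (fst (app F1 x)) ∩ b.u (tK (app F v) (insert ξ ξ)) =
        b.u (tK (app F v) ξ)) ∧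
      (ξ0 ∈ κ → ξ0 = ξ → ∀ v ∈ I, b.u (fst w0) ∩ b.u (tK (app F v) (insert ξ ξ)) ⊆
        b.u (tK (app F v) ξ)) ∧
      (ξ0 ∈ κ → ξ0 = ξ → ∀ x ∈ I1, b.u (fst w0) ∩ b.u (fst (app F1 x)) ⊆ b.u (fst q))

/-- Y4: step 2 -/
def T_Y4 : Prop := ∀ (D : Cx) (κ : V) (b : BS), Amb D κ → b.Ok D κ →
  ∀ I F Z ξ0 v0 w0, b.Pas D κ I F Z ξ0 v0 w0 → ∀ ξ ∈ κ, ∀ q, b.Pg D κ I F Z ξ0 v0 w0 ξ q →
    ∀ Z', b.Av D κ I F Z ξ0 w0 Z' → ∀ I1 F1, b.Pts D ξ Z' q I1 F1 →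
      ∃ u, b.Bnd D κ I F ξ0 w0 Z' ξ q I1 F1 u

end SE.UZ
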