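import Pool.Agent.H72.UZ.TarX

/-!
# MP_f6fd33_lc: targets for section 8 (late entries, limit steps, the pass) and 9
-/

set_option linter.unusedVariables false

open Ordinal Order Set
open scoped ZFSet

namespace SE.UZ

open SF

/-! ## Late entries (step 3) -/

/-- `h'` is a set of elements of histories over `ρ` of stage `e` -/
structure Hst (D : Cx) (ρ h' : V) (e : Ordinal.{0}) : Prop where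
  n : D.N h'
  m : ∀ z ∈ h', ∃ q ∈ D.P ρ, ∃ X Y, (D.N X ∧ Nam D.L ρ X) ∧ (D.N Y ∧ Nam D.L ρ Y) ∧
    z = ht q X Y e.toZFSet

/-- `h'` is a set of late entries of stage `ρ_ξ` for the world `(B, h)` -/
structure BS.Lat (b : BS) (D : Cx) (ξ B h h' : V) : Prop where
  s : Hst D (b.u B) h' (b.rho D ξ)
  f : ∀ G, D.Gn (b.u B) G → ∀ X y y' e e', Ent h' G X y e → Ent h' G X y' e' → y = y'
  d : ∀ G, D.Gn (b.u B) G → ∀ X y e, Ent h' G X y e → ¬ Dcc h G X ∧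
    ¬ b.Kb D (b.Wd D) (b.rho D ξ) B h G X y ∧ ¬ b.Pt B G X ∧
    ∀ j ∈ b.u B, b.Co j → ¬ Sn D G X y j

/-- Y5: late entries -/
def T_Y5 : Prop := ∀ (D : Cx) (κ : V) (b : BS), Amb D κ → b.Ok D κ → ∀ ξ ∈ κ, ∀ B h,
  b.Wd D (b.rho D ξ) B h → (∀ j ∈ b.u B, b.Co j → tm j ∈ insert ξ ξ) →
  ∀ h', b.Lat D ξ B h h' → b.Wd D (succ (b.rho D ξ)) B (h ∪ h') ∧
    ∀ G X y e, Ent (h ∪ h') G X y e ↔ Ent h G X y e ∨ Ent h' G X y e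

/-- Y6: selection of values for a decided relation `Q` -/
def T_Y6 : Prop := ∀ (D : Cx) (κ : V), Amb D κ → ∀ ρ ∈ D.H, Cld D.L ρ →
  ∀ (Q : V → V → V → Prop) (O : V), D.N O →
    (∀ G, D.Gn ρ G → ∀ X Y, (D.N X ∧ Nam D.L ρ X) → (D.N Y ∧ Nam D.L ρ Y) →
      (Q G (ev G X) (ev G Y) ↔ ∃ p ∈ G, ZFSet.pair p (ZFSet.pair X Y) ∈ O)) →
    ∀ e : Ordinal.{0}, D.N e.toZFSet → ∃ h', Hst D ρ h' e ∧ ∀ G, D.Gn ρ G →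
      (∀ X y e', Ent h' G X y e' → e' = e ∧ RR D ρ G X ∧ RR D ρ G y ∧ Q G X y) ∧
      (∀ X y, RR D ρ G X → RR D ρ G y → Q G X y → ∃ y', Ent h' G X y' e) ∧
      ∀ X y y' e' e'', Ent h' G X y e' → Ent h' G X y' e'' → y = y'

/-- the late entries (alpha) -/
def BS.Qa (b : BS) (D : Cx) (I F ξ G X y : V) : Prop :=
  ∃ v ∈ I, Ent (tH (app F v) (insert ξ ξ)) G X y (b.rho D ξ)

/-- the candidates for the late entries (beta) -/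
structure BS.Qb (b : BS) (D : Cx) (I F ξ q u G X y : V) : Prop where
  x : RR D (b.u (fst q)) G X
  nx : ∀ v ∈ I, ¬ RR D (b.u (tK (app F v) (insert ξ ξ))) G X
  d : ¬ Dcc (snd u) G X
  n : b.Nn D (b.Wd D) (b.rho D ξ) (fst u) (snd u) G X
  p : ¬ b.Pt (fst q) G X
  ny : ¬ RR D (b.u (fst q)) G y
  k : ¬ b.Kb D (b.Wd D) (b.rho D ξ) (fst u) (snd u) G X y
  s : ∀ j ∈ b.u (fst u), b.Co j → ¬ Sn D G X y j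

/-- Y7: the relation (alpha) or (beta) is decided -/
def T_Y7 : Prop := ∀ (D : Cx) (κ : V) (b : BS), Amb D κ → b.Ok D κ →
  ∀ I F, D.N I → D.N F → (∀ v ∈ I, b.Tw D κ (app F v)) → ∀ ξ ∈ κ, ∀ q u, b.Wr D ξ q →
    b.Wr D ξ u → b.Le (fst q) (fst u) →
    (∀ v ∈ I, b.Le (tK (app F v) (insert ξ ξ)) (fst u)) →
    ∃ O, D.N O ∧ ∀ G, D.Gn (b.u (fst u)) G → ∀ X Y, (D.N X ∧ Nam D.L (b.u (fst u)) X) →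
      (D.N Y ∧ Nam D.L (b.u (fst u)) Y) →
      (b.Qa D I F ξ G (ev G X) (ev G Y) ∨ b.Qb D I F ξ q u G (ev G X) (ev G Y) ↔
        ∃ p ∈ G, ZFSet.pair p (ZFSet.pair X Y) ∈ O)

/-- step 3: the world `u'` of stage `ρ_ξ + 1` -/
structure BS.Lte (b : BS) (D : Cx) (I F ξ q u u' : V) : Prop where
  e : fst u' = fst u
  w : b.Wd D (succ (b.rho D ξ)) (fst u') (snd u')
  o : ∀ G, D.Gn (b.u (fst u)) G → ∀ X y e, e < b.rho D ξ →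
    (Ent (snd u') G X y e ↔ Ent (snd u) G X y e)
  l : ∀ G, D.Gn (b.u (fst u)) G → ∀ X y, Ent (snd u') G X y (b.rho D ξ) →
    b.Qa D I F ξ G X y ∨ b.Qb D I F ξ q u G X y
  a : ∀ G, D.Gn (b.u (fst u)) G → ∀ X y, b.Qa D I F ξ G X y →
    Ent (snd u') G X y (b.rho D ξ)
  c : ∀ G, D.Gn (b.u (fst u)) G → ∀ X, RR D (b.u (fst q)) G X →
    (∀ v ∈ I, ¬ RR D (b.u (tK (app F v) (insert ξ ξ))) G X) → ¬ Dcc (snd u) G X →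
    b.Nn D (b.Wd D) (b.rho D ξ) (fst u) (snd u) G X → ¬ b.Pt (fst q) G X →
    ∃ y, Ent (snd u') G X y (b.rho D ξ)

/-- Y8a: the candidates (alpha) are admissible late entries -/
def T_Y8a : Prop := ∀ (D : Cx) (κ : V) (b : BS), Amb D κ → b.Ok D κ →
  ∀ I F Z ξ0 v0 w0, b.Pas D κ I F Z ξ0 v0 w0 → ∀ ξ ∈ κ, ∀ q, b.Pg D κ I F Z ξ0 v0 w0 ξ q →
    ∀ Z', b.Av D κ I F Z ξ0 w0 Z' → ∀ I1 F1, b.Pts D ξ Z' q I1 F1 →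
    ∀ u, b.Bnd D κ I F ξ0 w0 Z' ξ q I1 F1 u → ∀ G, D.Gn (b.u (fst u)) G →
      ∀ X y, b.Qa D I F ξ G X y → ¬ Dcc (snd u) G X ∧
        ¬ b.Kb D (b.Wd D) (b.rho D ξ) (fst u) (snd u) G X y ∧ ¬ b.Pt (fst u) G X ∧
        (∀ j ∈ b.u (fst u), b.Co j → ¬ Sn D G X y j) ∧
        (∀ y', b.Qa D I F ξ G X y' → y' = y) ∧ ∀ y', ¬ b.Qb D I F ξ q u G X y'

/-- Y8b: there are candidates (beta) -/
def T_Y8b : Prop := ∀ (D : Cx) (κ : V) (b : BS), Amb D κ → b.Ok D κ →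
  ∀ I F Z ξ0 v0 w0, b.Pas D κ I F Z ξ0 v0 w0 → ∀ ξ ∈ κ, ∀ q, b.Pg D κ I F Z ξ0 v0 w0 ξ q →
    ∀ Z', b.Av D κ I F Z ξ0 w0 Z' → ∀ I1 F1, b.Pts D ξ Z' q I1 F1 →
    ∀ u, b.Bnd D κ I F ξ0 w0 Z' ξ q I1 F1 u → ∀ G, D.Gn (b.u (fst u)) G →
      b.Gnr D ξ q I1 F1 (b.u (fst u)) G → ∀ X, RR D (b.u (fst q)) G X →
        (∀ v ∈ I, ¬ RR D (b.u (tK (app F v) (insert ξ ξ))) G X) → ¬ Dcc (snd u) G X →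
        b.Nn D (b.Wd D) (b.rho D ξ) (fst u) (snd u) G X → ¬ b.Pt (fst q) G X →
        ∃ y, RR D (b.u (fst u)) G y ∧ b.Qb D I F ξ q u G X y

/-- Y8: step 3 -/
def T_Y8 : Prop := ∀ (D : Cx) (κ : V) (b : BS), Amb D κ → b.Ok D κ →
  ∀ I F Z ξ0 v0 w0, b.Pas D κ I F Z ξ0 v0 w0 → ∀ ξ ∈ κ, ∀ q, b.Pg D κ I F Z ξ0 v0 w0 ξ q →
    ∀ Z', b.Av D κ I F Z ξ0 w0 Z' → ∀ I1 F1, b.Pts D ξ Z' q I1 F1 →
    ∀ u, b.Bnd D κ I F ξ0 w0 Z' ξ q I1 F1 u →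
      (∀ G, D.Gn (b.u (fst u)) G → b.Gnr D ξ q I1 F1 (b.u (fst u)) G) →
      ∃ u', b.Lte D I F ξ q u u'

/-- Y9: step 4 -/
def T_Y9 : Prop := ∀ (D : Cx) (κ : V) (b : BS), Amb D κ → b.Ok D κ →
  ∀ I F Z ξ0 v0 w0, b.Pas D κ I F Z ξ0 v0 w0 → ∀ ξ ∈ κ, ∀ q, b.Pg D κ I F Z ξ0 v0 w0 ξ q →
    ∀ Z', b.Av D κ I F Z ξ0 w0 Z' → ∀ I1 F1, b.Pts D ξ Z' q I1 F1 →
    ∀ u, b.Bnd D κ I F ξ0 w0 Z' ξ q I1 F1 u → ∀ u', b.Lte D I F ξ q u u' →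
      ∃ q', b.Wr D (insert ξ ξ) q' ∧ fst q' = fst u ∧
        b.LW D (succ (b.rho D ξ)) (fst u') (snd u') (fst q') (snd q') ∧
        ∀ v ∈ I, b.Lr D (insert ξ ξ) (app (app F v) (insert ξ ξ)) q'

/-- Y10: the invariants after a successor step -/
def T_Y10 : Prop := ∀ (D : Cx) (κ : V) (b : BS), Amb D κ → b.Ok D κ →
  ∀ I F Z ξ0 v0 w0, b.Pas D κ I F Z ξ0 v0 w0 → ∀ ξ ∈ κ, ∀ f,
    b.Pf D κ I F Z ξ0 v0 w0 (insert ξ ξ) f → ∀ q, q = app f ξ →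
    ∀ Z', b.Av D κ I F Z ξ0 w0 Z' → ∀ I1 F1, b.Pts D ξ Z' q I1 F1 →
    ∀ u, b.Bnd D κ I F ξ0 w0 Z' ξ q I1 F1 u →
      (∀ G, D.Gn (b.u (fst u)) G → b.Gnr D ξ q I1 F1 (b.u (fst u)) G) →
      ∀ u', b.Lte D I F ξ q u u' → ∀ q', b.Wr D (insert ξ ξ) q' → fst q' = fst u →
        b.LW D (succ (b.rho D ξ)) (fst u') (snd u') (fst q') (snd q') →
        (∀ v ∈ I, b.Lr D (insert ξ ξ) (app (app F v) (insert ξ ξ)) q') →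
        b.Pg D κ I F Z ξ0 v0 w0 (insert ξ ξ) q' ∧
        (∀ η ∈ insert ξ ξ, b.Pr2 D η (insert ξ ξ) (app f η) q') ∧ b.Pr3 D ξ q q'

/-- Y11: successor steps -/
def T_Y11 : Prop := ∀ (D : Cx) (κ : V) (b : BS), Amb D κ → b.Ok D κ →
  ∀ I F Z ξ0 v0 w0, b.Pas D κ I F Z ξ0 v0 w0 → ∀ ξ ∈ κ, ∀ f,
    b.Pf D κ I F Z ξ0 v0 w0 (insert ξ ξ) f → ∃ q', b.Pg D κ I F Z ξ0 v0 w0 (insert ξ ξ) q' ∧
      (∀ η ∈ insert ξ ξ, b.Pr2 D η (insert ξ ξ) (app f η) q') ∧ b.Pr3 D ξ (app f ξ) q'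

/-! ## Limit steps -/

/-- Y12: limit steps, pairwise compatibility -/
def T_Y12 : Prop := ∀ (D : Cx) (κ : V) (b : BS), Amb D κ → b.Ok D κ →
  ∀ I F Z ξ0 v0 w0, b.Pas D κ I F Z ξ0 v0 w0 → ∀ ξ ∈ κ, (∀ η ∈ ξ, insert η η ∈ ξ) → ∀ f,
    b.Pf D κ I F Z ξ0 v0 w0 ξ f →
    (∀ η ∈ ξ, ∀ η' ∈ ξ, b.Cmt D (b.rho D η) (fst (app f η)) (snd (app f η))
      (b.rho D η') (fst (app f η')) (snd (app f η'))) ∧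
    ∀ η ∈ ξ, ∀ v ∈ I, b.Cmt D (b.rho D η) (fst (app f η)) (snd (app f η))
      (b.rho D ξ) (tK (app F v) ξ) (tH (app F v) ξ) ∧
      b.u (fst (app f η)) ∩ b.u (tK (app F v) ξ) = b.u (tK (app F v) η)

/-- Y13: limit steps -/
def T_Y13 : Prop := ∀ (D : Cx) (κ : V) (b : BS), Amb D κ → b.Ok D κ →
  ∀ I F Z ξ0 v0 w0, b.Pas D κ I F Z ξ0 v0 w0 → ∀ ξ ∈ κ, (∀ η ∈ ξ, insert η η ∈ ξ) → ∀ f,
    b.Pf D κ I F Z ξ0 v0 w0 ξ f → ∃ q, b.Pg D κ I F Z ξ0 v0 w0 ξ q ∧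
      ∀ η ∈ ξ, b.Pr2 D η ξ (app f η) q

/-! ## The pass -/

/-- Y14: the relations of the pass are given by sets of the ground model -/
def T_Y14 : Prop := ∀ (D : Cx) (κ : V) (b : BS), Amb D κ → b.Ok D κ →
  ∀ I F Z ξ0 v0 w0, b.Pas D κ I F Z ξ0 v0 w0 → ∃ A S1 S2 S3, D.N A ∧ D.N S1 ∧ D.N S2 ∧
    D.N S3 ∧ (∀ ξ ∈ κ, ∀ q, b.Pg D κ I F Z ξ0 v0 w0 ξ q → q ∈ A) ∧
    (∀ ξ ∈ κ, ∀ q ∈ A, (ZFSet.pair ξ q ∈ S1 ↔ b.Pg D κ I F Z ξ0 v0 w0 ξ q)) ∧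
    (∀ ξ ∈ κ, ∀ η ∈ ξ, ∀ p ∈ A, ∀ q ∈ A,
      (ZFSet.pair η (ZFSet.pair ξ (ZFSet.pair p q)) ∈ S2 ↔ b.Pr2 D η ξ p q)) ∧
    ∀ ξ ∈ κ, ∀ p ∈ A, ∀ q ∈ A, (ZFSet.pair ξ (ZFSet.pair p q) ∈ S3 ↔ b.Pr3 D ξ p q)

/-- PAS: the pass -/
def T_PAS : Prop := ∀ (D : Cx) (κ : V) (b : BS), Amb D κ → b.Ok D κ →
  ∀ I F Z ξ0 v0 w0, b.Pas D κ I F Z ξ0 v0 w0 → ∃ T, b.Rt D κ T ∧
    (∀ v ∈ I, b.TLe D κ (app F v) T) ∧ (ξ0 ∈ κ → b.u (fst w0) ⊆ b.ut κ T) ∧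
    ∀ i ∈ b.ut κ T, (∀ v ∈ I, i ∉ b.ut κ (app F v)) → ¬ (ξ0 ∈ κ ∧ i ∈ b.u (fst w0)) →
      Kl (b.l + 1) i ∧ i ∉ Z

/-- RT: there is a rich tower -/
def T_RT : Prop := ∀ (D : Cx) (κ : V) (b : BS), Amb D κ → b.Ok D κ → ∃ T, b.Rt D κ T

/-- ADD: new labels for towers -/
def T_ADD : Prop := ∀ (D : Cx) (κ : V) (b : BS), Amb D κ → b.Ok D κ → ∀ T, b.Tw D κ T →
  ∀ Y, D.N Y → Nam D.L (b.ut κ T) Y → ∀ e : ℕ, e = 0 ∨ b.l + 2 ≤ e →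
    ∀ τ ∈ D.H, ∀ u ∈ D.H, ∀ Z ∈ D.H, ∃ T' i, b.TLe D κ T T' ∧ i ∈ b.ut κ T' ∧
      i ∉ b.ut κ T ∧ i ∉ Z ∧ kd i = nS e ∧ tm i = τ ∧ vw i = u ∧ lS i ⊆ b.ut κ T ∧
      (∀ G, D.Gn (b.ut κ T') G → ev G (lZ i) = ev G Y) ∧
      ∀ k ∈ b.ut κ T', k ∉ b.ut κ T → k ≠ i → Kl (b.l + 2) k ∧ k ∉ Z

/-! ## Section 9: the new base system -/

/-- Q1: the new system: sets in the ground model, the relations -/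
def T_Q1 : Prop := ∀ (D : Cx) (κ : V) (b : BS), Amb D κ → b.Ok D κ → ∀ c, c = b.Pr D κ →
  (D.N c.Ob ∧ D.N c.U ∧ D.N c.le ∧ D.N c.Rc ∧ D.N c.tr ∧ D.N c.Sc) ∧
  (∀ T, T ∈ c.Ob ↔ b.Tw D κ T) ∧ (∀ T, b.Tw D κ T → c.u T = b.ut κ T) ∧
  (∀ C T, c.Le C T ↔ b.TLe D κ C T) ∧
  (∀ C T, c.Ri C T ↔ b.TLe D κ C T ∧ b.Rt D κ T) ∧
  (∀ T, b.Tw D κ T → ∀ π ρ', Isl D (b.l + 2) b.S' π (b.ut κ T) ρ' → c.T π T = b.tT κ π T) ∧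
  ∀ z, z ∈ c.Sc ↔ b.Sq D κ z

/-- Q2: the secured facts of the new system -/
def T_Q2 : Prop := ∀ (D : Cx) (κ : V) (b : BS), Amb D κ → b.Ok D κ → ∀ T, b.Tw D κ T →
  ∀ ρ, D.N ρ → Cld D.L ρ → b.ut κ T ⊆ ρ → ∀ G, D.Gn ρ G → ∀ a x, RR D (b.ut κ T) G a →
    RR D (b.ut κ T) G x →
    ((b.Pr D κ).Se T G a x ↔ ¬ Dct κ T G (prl (kc 0) (prl a x)))

/-- the data of a chain of towers -/
structure BS.Cht (b : BS) (D : Cx) (κ F Λ G : V) : Prop where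
  n : D.N F
  t : ∀ ξ ∈ κ, b.Tw D κ (app F ξ)
  m : ∀ ξ ∈ κ, ∀ η ∈ κ, ξ ∈ η → b.TLe D κ (app F ξ) (app F η)
  r : ∀ ξ ∈ κ, b.Rt D κ (app F (insert ξ ξ))
  l : Λ = (⋃₀ (imS κ fun ξ => b.ut κ (app F ξ)) : ZFSet)
  g : D.Gn Λ G

/-- `(X, y)` is an entry of the union of the chain -/
def Enu (κ F G X y : V) : Prop := ∃ ξ ∈ κ, Ett κ (app F ξ) G X y

/-- Q3: the diagonal cores -/
def T_Q3 : Prop := ∀ (D : Cx) (κ : V) (b : BS), Amb D κ → b.Ok D κ → ∀ F Λ G,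
  b.Cht D κ F Λ G → ∀ C, C = resS κ (fun ξ => tK (app F ξ) ξ) →
    b.Ch D κ C ∧ b.un κ C = Λ ∧ Λ ∈ D.H ∧ CS D Λ ∧
    (∀ x, D.W G x → Rl x → ∃ ξ ∈ κ, RR D (b.u (app C ξ)) G x) ∧
    (∀ ξ ∈ κ, ∀ η ∈ κ, ξ ⊆ η → (∀ x, RR D (b.u (app C ξ)) G x → RR D (b.u (app C η)) G x) ∧
      b.LW D (b.rho D ξ) (app C ξ) (tH (app F ξ) ξ) (app C η) (tH (app F η) η)) ∧
    (∀ ξ ∈ κ, b.Wd D (b.rho D ξ) (app C ξ) (tH (app F ξ) ξ)) ∧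
    (∀ X y, Enu κ F G X y ↔ ∃ ξ ∈ κ, ∃ e, Ent (tH (app F ξ) ξ) G X y e) ∧
    (∀ X y y', Enu κ F G X y → Enu κ F G X y' → y = y') ∧
    (∀ ξ ∈ κ, ∀ X, RR D (b.ut κ (app F ξ)) G X →
      ((∃ y, Enu κ F G X y) ↔ Dct κ (app F ξ) G X)) ∧
    ∀ ξ ∈ κ, ∀ p, p = app (app F (insert ξ ξ)) ξ → ∀ X y, RR D (b.u (app C ξ)) G X →
      RR D (b.u (app C ξ)) G y → RR D (b.u (fst p)) G X ∧ RR D (b.u (fst p)) G y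

/-- Q4: (9.2) entries and the sets of level `l` -/
def T_Q4 : Prop := ∀ (D : Cx) (κ : V) (b : BS), Amb D κ → b.Ok D κ → ∀ F Λ G,
  b.Cht D κ F Λ G → ∀ a x, D.W G a → Rl a → D.W G x → Rl x →
    (∀ y, Enu κ F G (prl (kc 0) (prl a x)) y → ¬ SgH (D.W G) b.l a (prl x y)) ∧
    ((∀ y, ¬ Enu κ F G (prl (kc 0) (prl a x)) y) →
      ∀ y, D.W G y → Rl y → SgH (D.W G) b.l a (prl x y))

/-- Q5: (9.4) the relation `D_l` -/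
def T_Q5 : Prop := ∀ (D : Cx) (κ : V) (b : BS), Amb D κ → b.Ok D κ → ∀ F Λ G,
  b.Cht D κ F Λ G → ∀ X y, D.W G X → Rl X → D.W G y → Rl y →
    (Dk (D.W G) D.L (b.l - 3) (prl X y) ↔ ¬ Enu κ F G X y)

/-- Q6: (9.5) promises are never decided, all other reals of this form are decided -/
def T_Q6 : Prop := ∀ (D : Cx) (κ : V) (b : BS), Amb D κ → b.Ok D κ → ∀ F Λ G,
  b.Cht D κ F Λ G → ∀ v, D.W G v → Rl v →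
    ((∃ y, Enu κ F G (prl (kc 1) v) y) ↔
      ¬ ∃ i ∈ Λ, kd i = nS (b.l + 2) ∧ v = prm G i)

/-- Q7: (9.6) the relation `D_{l+2}` -/
def T_Q7 : Prop := ∀ (D : Cx) (κ : V) (b : BS), Amb D κ → b.Ok D κ → ∀ F Λ G,
  b.Cht D κ F Λ G → ∀ z z', D.W G z → Rl z → D.W G z' → Rl z' →
    (Dk (D.W G) D.L (b.l - 1) (prl z z') ↔
      ∃ i ∈ Λ, kd i = nS (b.l + 2) ∧ ev G (lZ i) = prl z z')

/-- Q8: (9.7) uniformization at the level `l` -/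
def T_Q8 : Prop := ∀ (D : Cx) (κ : V) (b : BS), Amb D κ → b.Ok D κ → ∀ F Λ G,
  b.Cht D κ F Λ G → UniH (D.W G) b.l

/-- PrOk: the new system is a base system -/
def T_PrOk : Prop := ∀ (D : Cx) (κ : V) (b : BS), Amb D κ → b.Ok D κ → (b.Pr D κ).Ok D κ

end SE.UZ
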