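import Pool.Agent.H72.UZ.TarY

/-!
# MP_f6fd33_lc: targets for section 9, intermediate statements
-/

set_option linter.unusedVariables false

open Ordinal Order Set
open scoped ZFSet

namespace SE.UZ

open SF

/-- Q1a: the towers, their order and richness are sets of the ground model -/
def T_Q1a : Prop := ∀ (D : Cx) (κ : V) (b : BS), Amb D κ → b.Ok D κ → ∃ X Y Z,
  D.N X ∧ D.N Y ∧ D.N Z ∧ (∀ T, T ∈ X ↔ b.Tw D κ T) ∧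
  (∀ z, z ∈ Y ↔ ∃ C T, b.TLe D κ C T ∧ z = ZFSet.pair C T) ∧
  (∀ z, z ∈ Z ↔ ∃ C T, b.TLe D κ C T ∧ b.Rt D κ T ∧ z = ZFSet.pair C T) ∧
  D.N (resS X fun T => b.ut κ T)

/-- Q1b: the transport of towers is in the ground model -/
def T_Q1b : Prop := ∀ (D : Cx) (κ : V) (b : BS), Amb D κ → b.Ok D κ → ∃ X, D.N X ∧
  (∀ z, z ∈ X ↔ ∃ π T ρ', b.Tw D κ T ∧ Isl D (b.l + 2) b.S' π (b.ut κ T) ρ' ∧
    z = ZFSet.pair π T) ∧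
  D.N (resS X fun z => b.tT κ (fst z) (snd z))

/-- Q1c: the secured facts form a set of the ground model -/
def T_Q1c : Prop := ∀ (D : Cx) (κ : V) (b : BS), Amb D κ → b.Ok D κ → ∃ X, D.N X ∧
  ∀ z, z ∈ X ↔ b.Sq D κ z

/-- Q4a: the sets of level `l` in the extension -/
def T_Q4a : Prop := ∀ (D : Cx) (κ : V) (b : BS), Amb D κ → b.Ok D κ → ∀ F Λ G,
  b.Cht D κ F Λ G → ∀ C, C = resS κ (fun ξ => tK (app F ξ) ξ) →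
    (∀ a z, D.W G a → Rl a → D.W G z → Rl z →
      (SgH (D.W G) b.l a z ↔ ∃ ξ ∈ κ, b.Ss D (app C ξ) G a z)) ∧
    ∀ ξ ∈ κ, (∀ a z, b.Ss D (app C ξ) G a z ↔
      b.Ss D (app C ξ) (gs G (b.u (app C ξ))) a z) ∧
      ∀ η ∈ κ, ξ ⊆ η → ∀ a z, b.Ss D (app C ξ) G a z → b.Ss D (app C η) G a z

/-- QA: the new system: labels, order, meets -/
def T_QA : Prop := ∀ (D : Cx) (κ : V) (b : BS), Amb D κ → b.Ok D κ → ∀ c, c = b.Pr D κ →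
  3 ≤ c.l ∧ (∀ k, c.S k → 3 ≤ k ∧ k + 2 ≤ c.l) ∧ (∀ B ∈ c.Ob, CS D (c.u B)) ∧
  (∀ B ∈ c.Ob, ∀ i ∈ c.u B, ∀ e, c.S e → kd i = nS e → vw i ⊆ c.u B) ∧
  (∀ C B, c.Le C B → C ∈ c.Ob ∧ B ∈ c.Ob ∧ c.u C ⊆ c.u B) ∧ (∀ B ∈ c.Ob, c.Le B B) ∧
  (∀ C B A, c.Le C B → c.Le B A → c.Le C A) ∧
  (∀ C C' B, c.Le C B → c.Le C' B → c.u C ⊆ c.u C' → c.Le C C') ∧
  ∀ C C' B, c.Le C B → c.Le C' B → ∃ E, c.Le E B ∧ c.u E = c.u C ∩ c.u C'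

/-- QB: the new system: transport -/
def T_QB : Prop := ∀ (D : Cx) (κ : V) (b : BS), Amb D κ → b.Ok D κ → ∀ c, c = b.Pr D κ →
  (∀ B ∈ c.Ob, ∀ π ρ', Isl D c.l c.S π (c.u B) ρ' → c.T π B ∈ c.Ob ∧ c.u (c.T π B) = ρ' ∧
    c.T (inv π) (c.T π B) = B ∧ ∀ C, c.Le C B → c.Le (c.T (rst (c.u C) π) C) (c.T π B)) ∧
  (∀ B ∈ c.Ob, c.T (idm (c.u B)) B = B) ∧
  ∀ B ∈ c.Ob, ∀ π ρ', Isl D c.l c.S π (c.u B) ρ' → ∀ G, D.Gn (c.u B) G → ∀ a x,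
    c.Se B G a x ↔ c.Se (c.T π B) (gi D π ρ' G) a x

/-- QC: the new system: bounds, richness, new labels -/
def T_QC : Prop := ∀ (D : Cx) (κ : V) (b : BS), Amb D κ → b.Ok D κ → ∀ c, c = b.Pr D κ →
  (∀ I F, c.Ag D I F → ∀ Z ∈ D.H, ∃ B ∈ c.Ob, (∀ v ∈ I, c.Ri (app F v) B) ∧
    ∀ k ∈ c.u B, (∀ v ∈ I, k ∉ c.u (app F v)) → Kl c.l k ∧ k ∉ Z) ∧
  (∀ C B, c.Ri C B → c.Le C B ∧ ∀ C0, c.Le C0 C → c.Ri C0 B) ∧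
  ∀ B ∈ c.Ob, ∀ Y, D.N Y → Nam D.L (c.u B) Y → ∀ e : ℕ, e = 0 ∨ c.l ≤ e →
    ∀ τ ∈ D.H, ∀ u ∈ D.H, ∀ Z ∈ D.H, ∃ B' i, c.Le B B' ∧ i ∈ c.u B' ∧ i ∉ c.u B ∧ i ∉ Z ∧
      kd i = nS e ∧ tm i = τ ∧ vw i = u ∧ lS i ⊆ c.u B ∧
      (∀ G, D.Gn (c.u B') G → ev G (lZ i) = ev G Y) ∧
      ∀ k ∈ c.u B', k ∉ c.u B → k ≠ i → Kl c.l k ∧ k ∉ Z

/-- QD: the new system: secured facts -/
def T_QD : Prop := ∀ (D : Cx) (κ : V) (b : BS), Amb D κ → b.Ok D κ → ∀ c, c = b.Pr D κ →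
  (∀ B p a x, ZFSet.pair B (ZFSet.pair p (ZFSet.pair a x)) ∈ c.Sc →
    B ∈ c.Ob ∧ p ∈ D.P (c.u B) ∧ (D.N a ∧ Nam D.L (c.u B) a) ∧ D.N x ∧ Nam D.L (c.u B) x) ∧
  ∀ C B, c.Le C B → ∀ G, D.Gn (c.u B) G → ∀ a x, RR D (c.u C) G a → RR D (c.u C) G x →
    (c.Se C G a x ↔ c.Se B G a x)

/-- QE: the new system: truth in the extension -/
def T_QE : Prop := ∀ (D : Cx) (κ : V) (b : BS), Amb D κ → b.Ok D κ → ∀ c, c = b.Pr D κ →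
  ∀ F, c.Ch D κ F → ∀ G, D.Gn (c.un κ F) G →
    (∀ ξ ∈ κ, ∀ a x, RR D (c.u (app F ξ)) G a → RR D (c.u (app F ξ)) G x →
      (¬ SgH (D.W G) (c.l - 1) a x ↔ c.Se (app F ξ) G a x)) ∧
    (∀ z z', D.W G z → Rl z → D.W G z' → Rl z' →
      (Dk (D.W G) D.L (c.l - 3) (prl z z') ↔
        ∃ i ∈ c.un κ F, kd i = nS c.l ∧ ev G (lZ i) = prl z z')) ∧
    ∀ k, c.S k → UniH (D.W G) k

end SE.UZ
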