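import Pool.Agent.H9.UZ.Tar
import Pool.Agent.H72.UZ.TarY
import Pool.Agent.H45.UZ.TarF

/-!
# MP_f6fd33_lc: base systems for all finite sets of pairwise non adjacent levels
-/

set_option linter.unusedVariables false

open Ordinal Order Set
open scoped ZFSet

namespace SE.UZ

open SF

/-- the elements of `S` are pairwise non adjacent -/
def NAdj (S : ℕ → Prop) : Prop := ∀ n m, S n → S m → n ≠ m → n + 2 ≤ m ∨ m + 2 ≤ n

/-- FAG: finite sets of pairwise non adjacent levels at least `3` -/
def T_FAG : Prop := ∀ (D : Cx) κ, Amb D κ → ∀ A : Finset ℕ, NAdj (· ∈ A) → (∀ n ∈ A, 3 ≤ n) →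
  ∃ Λ, D.N Λ ∧ Cld D.L Λ ∧ ∀ G, D.Gn Λ G → ∀ n ∈ A, UniH (D.W G) n

theorem exists_sys (hB : T_FB) (hF : T_FrOk) (hP : T_PrOk) {D : Cx} {κ : V} (hK : Amb D κ) :
    ∀ l : ℕ, 3 ≤ l → ∀ S : ℕ → Prop, NAdj S → (∀ k, S k → 3 ≤ k ∧ k + 2 ≤ l) →
      ∃ b : BS, b.Ok D κ ∧ b.l = l ∧ ∀ k, b.S k ↔ S k := by
  intro l
  induction l using Nat.strong_induction_on with
  | _ l ih =>
    intro hl S hS hS'
    rcases Nat.lt_or_ge l 4 with h4 | h4
    · have e : l = 3 := by omega
      subst e
      refine ⟨fbs D, hB D κ hK, rfl, fun k => ⟨fun h => h.elim, fun h => ?_⟩⟩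
      have := hS' k h
      omega
    · by_cases h : S (l - 2)
      · have h5 : 5 ≤ l := by
          have := hS' _ h
          omega
        obtain ⟨b, hb, e1, e2⟩ := ih (l - 2) (by omega) (by omega)
          (fun k => S k ∧ k ≠ l - 2) (fun n m hn hm hnm => hS n m hn.1 hm.1 hnm)
          (fun k hk => by
            have h6 := hS' k hk.1
            rcases hS k (l - 2) hk.1 h hk.2 with h7 | h7
            · exact ⟨h6.1, h7⟩
            · omega)
        refine ⟨b.Pr D κ, hP D κ b hK hb, ?_, fun k => ?_⟩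
        · show b.l + 2 = l
          omega
        · show b.S k ∨ k = b.l ↔ S k
          rw [e2, e1]
          constructor
          · rintro (h6 | rfl)
            · exact h6.1
            · exact h
          · intro h6
            by_cases h7 : k = l - 2
            · exact Or.inr h7
            · exact Or.inl ⟨h6, h7⟩
      · obtain ⟨b, hb, e1, e2⟩ := ih (l - 1) (by omega) (by omega) S hS (fun k hk => by
            have h6 := hS' k hk
            have h7 : k ≠ l - 2 := by
              rintro rfl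
              exact h hk
            omega)
        refine ⟨b.Fr D, hF D κ hK b hb, ?_, e2⟩
        show b.l + 1 = l
        omega

theorem pf_FAG (hB : T_FB) (hF : T_FrOk) (hP : T_PrOk) (h1 : T_FA1) : T_FAG := by
  intro D κ hK A hA hA'
  rcases A.eq_empty_or_nonempty with rfl | hne
  · obtain ⟨Λ, h2, h3, h4⟩ := h1 D κ hK (fbs D) (hB D κ hK) (hP D κ _ hK (hB D κ hK))
    exact ⟨Λ, h2, h3, fun G hG n hn => absurd hn (Finset.notMem_empty n)⟩
  · have hm := A.max'_mem hne
    obtain ⟨b, hb, e1, e2⟩ := exists_sys hB hF hP hK (A.max' hne) (hA' _ hm)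
      (fun k => k ∈ A ∧ k ≠ A.max' hne) (fun n m hn hm hnm => hA n m hn.1 hm.1 hnm)
      (fun k hk => by
        rcases hA k _ hk.1 hm hk.2 with h7 | h7
        · exact ⟨hA' k hk.1, h7⟩
        · have := A.le_max' k hk.1
          omega)
    obtain ⟨Λ, h2, h3, h4⟩ := h1 D κ hK b hb (hP D κ b hK hb)
    refine ⟨Λ, h2, h3, fun G hG n hn => h4 G hG n ?_⟩
    show b.S n ∨ n = b.l
    rw [e2, e1]
    by_cases h7 : n = A.max' hne
    · exact Or.inr h7
    · exact Or.inl ⟨hn, h7⟩

end SE.UZ
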