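import Pool.Agent.H45.UZ.TarP

/-!
# MP_f6fd33_lc, module L4: reals which are not of the form `⟨k_0, ⟨a, x⟩⟩`
-/

set_option linter.unusedVariables false

open Ordinal Order Set
open scoped ZFSet

namespace SE.UZ

open SF

namespace H72L4

theorem tm_K : Tm ZFm (fun _ v => resS (v 0) fun w => v 1) :=
  Tm.resS (f := fun _ v => v 0) (g := fun _ v => v 2) (Tm.var 0) (Tm.var 2)

theorem tm_s : Tm ZFm (fun _ v => ({v 0} : V)) := Tm.sing (Tm.var 0)

end H72L4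

open H72L4 in
theorem pf_L4 (PWE : T_PWE) (POC : T_POC) (QRN : T_QRN) (BM : T_BM) (BO : T_BO)
    (A1 : T_A1) (BD : T_BD) (BJ : T_BJ) : T_L4 := by
  intro D κ b σ hc hPA B h hw G hG X hX hXn
  obtain ⟨am, ok, sN⟩ := id hc
  have DO : D.Ok := am.ok
  have kN : ZFm D.N := DO.zfc.toZFCm.toZFm
  have hk : ∀ B' h' G' y, ¬ b.Kb D (b.Wd D) σ B' h' G' X y := by
    rintro B' h' G' y ⟨B2, h2, G2, -, a, x, ha, hx, e, -⟩
    exact hXn a x ha hx e
  have hNn : b.Nn D (b.Wd D) σ B h G X := by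
    have iw : b.Iw D (b.Wd D) σ B h := (PWE b D σ _ _).1 hw
    have hOb : B ∈ b.Ob := iw.wo.o.o
    have cs : CS D (b.u B) := ok.cs B hOb
    have nB : D.N (b.u B) := kN.trans _ DO.hN _ cs.h
    have e0 : (∅ : V) ∈ D.H := DO.zfH.trans _ am.kH _ am.zero
    have e1 : (∅ : V) ∈ ({∅} : V) := by simp
    have hkn := (BO D DO (b.u B) nB cs.c).2.2.2.1 0
    obtain ⟨B1, i, h1, h2, h3, h4, -, h6, -, -, -, -, h7⟩ := POC D κ am b ok B iw.wo.o _ hkn.1
      hkn.2.1 0 ∅ (Or.inl rfl) ∅ e0 e0 ∅ e0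
    have cs1 : CS D (b.u B1) := ok.cs B1 h2.o
    have nB1 : D.N (b.u B1) := kN.trans _ DO.hN _ cs1.h
    have sub : b.u B ⊆ b.u B1 := (ok.leO _ _ h1).2.2
    have trB : Tr (b.u B) := fun i hi => (cs.c i hi).2
    have trB1 : Tr (b.u B1) := fun i hi => (cs1.c i hi).2
    have nBo : D.N B := kN.trans _ ok.nO _ hOb
    have n1 : D.N ({∅} : V) :=
      tm_s.1 D.N kN (fun _ => ∅) (fun _ => kN.trans _ DO.hN _ e0)
    have nf : ∀ x, D.N x → D.N (resS {∅} fun _ => x) := fun x hx =>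
      tm_K.1 D.N kN (cons {∅} fun _ => x) (In.cons (fun _ => hx) n1)
    have nf' : D.N (resS ({∅} : V) fun _ => B) := nf B nBo
    have nh' : D.N (resS ({∅} : V) fun _ => h) := nf h iw.wo.hs.n
    have eB : ∀ v ∈ ({∅} : V), app (resS ({∅} : V) fun _ => B) v = B := fun v hv => app_resS hv
    have eh : ∀ v ∈ ({∅} : V), app (resS ({∅} : V) fun _ => h) v = h := fun v hv => app_resS hv
    have hAF := A1 D κ b σ hc {∅} (resS {∅} fun _ => B) (resS {∅} fun _ => h) B1 n1 nf' nh' h2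
      (fun v hv => by rw [eB v hv, eh v hv]; exact ⟨hw, h1⟩)
      (fun G' hG' v hv v' hv' X' hX' y e he => by rw [eh v hv, eh v' hv'])
      (fun j hj hcj => ⟨∅, e1, by
        rw [eB ∅ e1]
        by_contra hjB
        have hcj' : kd j = nS b.l := hcj
        have hl := ok.l3
        by_cases hji : j = i
        · subst hji
          rw [h6] at hcj'
          have := nS_inj.1 hcj'
          omega
        · obtain ⟨e, he, he'⟩ := (h7 j hj hjB hji).1
          rw [hcj'] at he'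
          have := nS_inj.1 he'
          omega⟩)
    obtain ⟨hp, hp1, hp2⟩ := hPA _ _ _ _ _ hAF
    have hp3 := hp2 ∅ e1
    rw [eB ∅ e1, eh ∅ e1] at hp3
    have hem : (∅ : V) ∈ G := by
      exact ((BJ D DO).2.2.2.2 (b.u B) nB cs.c).2 G hG |>.2.1.2.1
    have hre : rst (b.u B) (∅ : V) = ∅ := by
      ext z
      simp [rst]
    obtain ⟨G1, g1, -, g2⟩ := BM D DO (b.u B) (b.u B1) G ∅ nB nB1 cs1.c sub trB hG
      (BD.1 _ _) (by rw [hre]; exact hem)
    have q1 := QRN D DO (b.u B1) G1 (b.u B1) nB1 cs1.c g1 nB1 (fun x hx => hx) trB1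
    have q2 := QRN D DO (b.u B1) G1 (b.u B) nB1 cs1.c g1 nB sub trB
    refine ⟨B1, hp, G1, cg G1 i, ⟨hp1, hp3, g1, g2⟩, (q1.2.2.2.2.2.2.2.2.2.1 i h3).2.1,
      fun h8 => h4 ?_, hk _ _ _ _⟩
    exact q2.2.2.2.2.2.2.2.2.2.2.1 i h3 h8
  exact ⟨hk _ _ _, hNn, fun h => h.1 hNn⟩

end SE.UZ
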