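import Pool.Agent.H72.UZ.TarZ

/-!
# MP_f6fd33_lc: the new system is a base system (assembly)
-/

set_option linter.unusedVariables false

open Ordinal Order Set
open scoped ZFSet

namespace SE.UZ

open SF

theorem pf_PrOk (h1 : T_Q1) (hA : T_QA) (hB : T_QB) (hC : T_QC) (hD : T_QD) (hE : T_QE) :
    T_PrOk := by
  intro D κ b hK hb
  obtain ⟨⟨n1, n2, n3, n4, n5, n6⟩, -⟩ := h1 D κ b hK hb _ rfl
  obtain ⟨a1, a2, a3, a4, a5, a6, a7, a8, a9⟩ := hA D κ b hK hb _ rfl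
  obtain ⟨b1, b2, b3⟩ := hB D κ b hK hb _ rfl
  obtain ⟨c1, c2, c3⟩ := hC D κ b hK hb _ rfl
  obtain ⟨d1, d2⟩ := hD D κ b hK hb _ rfl
  exact ⟨a1, a2, n1, n2, n3, n4, n5, n6, a3, a4, a5, a6, a7, a8, a9, b1, b2, b3, c1, c2, c3,
    d1, d2, hE D κ b hK hb _ rfl⟩

end SE.UZ
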