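import Pool.Agent.H38.UZ.TarZ

/-!
# MP_f6fd33_lc, Y10: the invariants after a successor step
-/

set_option linter.unusedVariables false

open Ordinal Order Set
open scoped ZFSet

namespace SE.UZ

open SF

theorem pf_Y10 (hY2 : T_Y2) (hY3 : T_Y3) (hW0 : T_W0) (hZR : T_ZR) (hZW : T_ZW) (hZE : T_ZE)
    (hLL : T_LL) (hPLW : T_PLW) (hQRM : T_QRM) (hBL : T_BL) : T_Y10 := by
  intro D κ b hK hb I F Z ξ0 v0 w0 hP ξ hξ f hf q hq Z' hZ' I1 F1 hI1 u hu hG u' hu' q' hq' eq' hL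
    hv
  obtain ⟨r1, r2, r3, r4, r5, r6, r7, r8⟩ := hZR D κ b hK hb
  have hξ1 : insert ξ ξ ∈ κ := (r2 ξ hξ).2.2
  have hξi : ξ ∈ insert ξ ξ := ZFSet.mem_insert_iff.2 (Or.inl rfl)
  have hqg : b.Pg D κ I F Z ξ0 v0 w0 ξ q := hq ▸ hf.g ξ hξi
  -- the worlds
  have wq := hqg.w.w
  have wu := hu.w.w
  have wu' := hu'.w
  have wq' := hq'.w
  have Zq := hZW D κ b hK hb _ _ _ wq
  have Zu := hZW D κ b hK hb _ _ _ wu
  have Zq' := hZW D κ b hK hb _ _ _ wq'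
  have Zu' := hZW D κ b hK hb _ _ _ wu'
  have hTw : ∀ v ∈ I, b.Tw D κ (app F v) := hP.t
  have Zv : ∀ v ∈ I, ∀ η ∈ κ, b.Wd D (b.rho D η) (tK (app F v) η) (tH (app F v) η) :=
    fun v hv η hη => ((hTw v hv).w η hη).w
  have ZF1 : ∀ x ∈ I1, b.Wd D (b.rho D ξ) (fst (app F1 x)) (snd (app F1 x)) :=
    fun x hx => (hI1.p x hx).w.w
  -- inclusions
  have sLe : ∀ {C B : V}, b.Le C B → b.u C ⊆ b.u B := fun h => (hb.leO _ _ h).2.2
  have sq : b.u (fst q) ⊆ b.u (fst u) := sLe hu.lq.1.le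
  have s1 : ∀ v ∈ I, b.u (tK (app F v) (insert ξ ξ)) ⊆ b.u (fst u) :=
    fun v hv => sLe (hu.lt v hv).le
  have sF : ∀ x ∈ I1, b.u (fst (app F1 x)) ⊆ b.u (fst u) := fun x hx => sLe (hu.lp x hx).le
  have sut : ∀ v ∈ I, ∀ η ∈ κ, b.u (tK (app F v) η) ⊆ b.ut κ (app F v) :=
    fun v hv η hη => ((hW0 D κ b hK hb _ (hTw v hv)).2.2.2.1 η hη).2.2
  have smo : ∀ v ∈ I, ∀ η ∈ κ, ∀ ζ ∈ κ, η ⊆ ζ →
      b.u (tK (app F v) η) ⊆ b.u (tK (app F v) ζ) :=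
    fun v hv η hη ζ hζ h => ((hW0 D κ b hK hb _ (hTw v hv)).2.2.2.2.1 η hη ζ hζ h).2
  have hsub : ξ ⊆ insert ξ ξ := fun x hx => ZFSet.mem_insert_iff.2 (Or.inr hx)
  have y2 : ∀ v ∈ I, ∀ v' ∈ I, ∀ η ∈ κ, ∀ i, i ∈ b.u (tK (app F v) η) →
      i ∈ b.ut κ (app F v') → i ∈ b.u (tK (app F v') η) :=
    fun v hv v' hv' η hη => (hY2 D κ b hK hb I F Z ξ0 v0 w0 hP v hv v' hv' η hη).2.1
  obtain ⟨-, -, -, y3, -, -, -⟩ := hY3 D κ b hK hb I F Z ξ0 v0 w0 hP ξ hξ q hqg Z' hZ' I1 F1 hI1 _ rfl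
  -- the good core
  have hPg : b.Pg D κ I F Z ξ0 v0 w0 (insert ξ ξ) q' := by
    refine ⟨hq', ?_, hv, ?_, ?_, ?_, ?_⟩
    · rw [eq']; exact hu.tm
    · intro v hvI
      rw [eq']
      ext i
      rw [ZFSet.mem_inter]
      constructor
      · rintro ⟨h1, h2⟩
        have hq1 : i ∈ b.u (fst q) → i ∈ b.u (tK (app F v) (insert ξ ξ)) := by
          intro h3
          have h4 : i ∈ b.u (fst q) ∩ b.ut κ (app F v) := ZFSet.mem_inter.2 ⟨h3, h2⟩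
          rw [hqg.i v hvI] at h4
          exact smo v hvI ξ hξ _ hξ1 hsub h4
        rcases hu.m i h1 with h3 | ⟨x, hx, h3⟩ | ⟨v', hv', h3⟩ | ⟨h3, h4, h5⟩ | ⟨h3, h4⟩
        · exact hq1 h3
        · by_cases h4 : i ∈ b.u (fst q)
          · exact hq1 h4
          · exact absurd (hZ'.t v hvI h2) ((hI1.p x hx).nl i h3 h4).2
        · exact y2 v' hv' v hvI _ hξ1 i h3 h2
        · subst h4
          obtain ⟨g1, -, -, -, g5⟩ := hP.v h3
          have h6 : i ∈ b.u (tK (app F v0) ξ0) := by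
            by_contra h7
            exact g5 i h5 h7 v hvI h2
          exact smo v hvI _ hξ _ hξ1 hsub (y2 v0 g1 v hvI _ hξ i h6 h2)
        · exact absurd (hZ'.t v hvI h2) h4
      · intro h1
        exact ⟨s1 v hvI h1, sut v hvI _ hξ1 h1⟩
    · intro h0 hs
      rw [eq']
      obtain ⟨g1, g2, g3, g4, g5⟩ := hP.v h0
      have hin : ξ ∈ ξ0 := hs hξi
      have hne : ¬ ξ0 = ξ := by
        rintro rfl
        exact (r6 _ hξ).1 hin
      have hss : ξ ⊆ ξ0 := fun x hx => hs (hsub hx)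
      ext i
      rw [ZFSet.mem_inter]
      constructor
      · rintro ⟨h1, h2⟩
        have hq1 : i ∈ b.u (fst q) → i ∈ b.u (tK (app F v0) (insert ξ ξ)) := by
          intro h3
          have h4 : i ∈ b.u (fst q) ∩ b.u (fst w0) := ZFSet.mem_inter.2 ⟨h3, h2⟩
          rw [hqg.i0 h0 hss] at h4
          exact smo v0 g1 ξ hξ _ hξ1 hsub h4
        rcases hu.m i h1 with h3 | ⟨x, hx, h3⟩ | ⟨v', hv', h3⟩ | ⟨h3, h4, h5⟩ | ⟨h3, h4⟩
        · exact hq1 h3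
        · by_cases h4 : i ∈ b.u (fst q)
          · exact hq1 h4
          · exact absurd (hZ'.w h0 h2) ((hI1.p x hx).nl i h3 h4).2
        · have h6 : i ∈ b.u (tK (app F v0) ξ0) := by
            by_contra h7
            exact g5 i h2 h7 v' hv' (sut v' hv' _ hξ1 h3)
          exact y2 v' hv' v0 g1 _ hξ1 i h3 (sut v0 g1 _ h0 h6)
        · exact absurd h4 hne
        · exact absurd (hZ'.w h0 h2) h4
      · intro h1
        exact ⟨s1 v0 g1 h1, sLe g3.le (smo v0 g1 _ hξ1 _ h0 hs h1)⟩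
    · intro h0 hs
      rw [eq']
      rcases ZFSet.mem_insert_iff.1 hs with rfl | h1
      · exact sLe (hu.lv h0 rfl).le
      · exact fun i hi => sq (hqg.c0 h0 h1 hi)
    · intro i hi h1 h2
      rw [eq'] at hi
      rcases hu.m i hi with h3 | ⟨x, hx, h3⟩ | ⟨v', hv', h3⟩ | ⟨h3, h4, h5⟩ | ⟨⟨e, h3, h3'⟩, h4⟩
      · exact hqg.nl i h3 h1 h2
      · by_cases h4 : i ∈ b.u (fst q)
        · exact hqg.nl i h4 h1 h2
        · have h5 := (hI1.p x hx).nl i h3 h4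
          exact ⟨h5.1, fun h6 => h5.2 (hZ'.z h6)⟩
      · exact absurd (sut v' hv' _ hξ1 h3) (h1 v' hv')
      · exact absurd ⟨h3, h5⟩ h2
      · exact ⟨⟨e, by omega, h3'⟩, fun h6 => h4 (hZ'.z h6)⟩
  -- the face relations
  obtain ⟨l1, l2, l3, -, -⟩ := hPLW D κ hK b hb
  obtain ⟨⟨q1, -, -, -, q5, q6, q7, -, -, q10, -⟩, qG⟩ := Zq
  obtain ⟨⟨u1, -, -, -, u5, u6, u7, -, -, u10, -⟩, uG⟩ := Zu
  obtain ⟨⟨v1, -, -, -, v5, v6, v7, -, -, v10, -⟩, vG⟩ := Zu'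
  obtain ⟨⟨w1, -, -, -, w5, w6, w7, -, -, w10, -⟩, wG⟩ := Zq'
  have hqu : b.LW D (b.rho D ξ) (fst q) (snd q) (fst u) (snd u) := hu.lq.1
  have huu' : b.LW D (b.rho D ξ) (fst u) (snd u) (fst u') (snd u') := by
    refine ⟨by rw [hu'.e]; exact hb.rfl _ u1, fun G' hG' X hX y e => ?_⟩
    rw [hu'.e] at hG'
    constructor
    · rintro ⟨h1, h2⟩
      exact ⟨(hu'.o G' hG' X y e h2).2 h1, h2⟩
    · rintro ⟨h1, h2⟩
      exact ⟨(hu'.o G' hG' X y e h2).1 h1, h2⟩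
  have hu'q' : b.LW D (b.rho D ξ) (fst u') (snd u') (fst q') (snd q') :=
    l3 _ _ _ _ _ _ (Order.le_succ _) hL
  have huq' : b.LW D (b.rho D ξ) (fst u) (snd u) (fst q') (snd q') :=
    l2 _ _ _ _ _ _ _ _ _ u1 u10 v10 huu' hu'q'
  have hqq : b.LW D (b.rho D ξ) (fst q) (snd q) (fst q') (snd q') :=
    l2 _ _ _ _ _ _ _ _ _ q1 q10 u10 hqu huq'
  -- entries of stage `ρ_ξ` in `q'`
  have hlate : ∀ G', D.Gn (b.u (fst u)) G' → ∀ X, RR D (b.u (fst u)) G' X → ∀ y,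
      (Ent (snd q') G' X y (b.rho D ξ) ↔ Ent (snd u') G' X y (b.rho D ξ)) := by
    intro G' hG' X hX y
    rw [← eq'] at hG'
    have h1 := hL.e G' hG' X (by rw [hu'.e]; exact hX) y (b.rho D ξ)
    exact ⟨fun h2 => (h1.2 ⟨h2, Order.lt_succ _⟩).1, fun h2 => (h1.1 ⟨h2, Order.lt_succ _⟩).1⟩
  refine ⟨hPg, ?_, ?_⟩
  · -- Pr2
    intro η hη
    have hηκ : η ∈ κ := r1 _ hξ1 _ hη
    have wη := (hf.g η hη).w.w
    obtain ⟨⟨e1, -, -, -, e5, e6, e7, -, -, e10, -⟩, eG⟩ := hZW D κ b hK hb _ _ _ wη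
    have hηξ : b.LW D (b.rho D η) (fst (app f η)) (snd (app f η)) (fst q) (snd q) := by
      rcases ZFSet.mem_insert_iff.1 hη with rfl | h1
      · rw [hq]
        exact l1 _ _ _ e1
      · rw [hq]
        exact (hf.r ξ hξi η h1).le
    have hle : b.rho D η ≤ b.rho D ξ :=
      ((r4 η hηκ ξ hξ).2.2.2.2.1).1 (((r4 η hηκ ξ hξ).2.1).2 hη)
    refine ⟨l2 _ _ _ _ _ _ _ _ _ e1 e10 q10 hηξ (l3 _ _ _ _ _ _ hle hqq), ?_⟩
    intro ζ hηζ hζ
    have hζκ : ζ ∈ κ := r1 _ hξ1 _ hζ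
    intro G' hG' X y hX hy hE
    have hqs : ∀ x, RR D (b.u (fst (app f η))) G' x → RR D (b.u (fst q)) G' x := by
      intro x hx
      have h1 := (hZE D κ b hK hb _ _ _ _ _ _ _ e10 q10 hηξ).2 _ w5 w7 (sLe hqq.le) G' hG'
      exact h1.1 x hx
    rcases ZFSet.mem_insert_iff.1 hζ with rfl | h1
    · -- late entries
      have hG'' : D.Gn (b.u (fst u)) G' := by rw [← eq']; exact hG'
      have hXu : RR D (b.u (fst u)) G' X := by
        have h2 := (qG _ u5 u7 sq G' hG'').2.1 X (hqs X hX)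
        exact h2
      have h2 := (hlate G' hG'' X hXu y).1 hE
      rcases hu'.l G' hG'' X y h2 with ⟨v, hvI, h3⟩ | h3
      · obtain ⟨⟨k1, -, -, -, k5, k6, k7, -, -, k10, -⟩, kG⟩ :=
          hZW D κ b hK hb _ _ _ (Zv v hvI _ hξ1)
        obtain ⟨k2, k3, k4, k8, -⟩ := kG _ u5 u7 (s1 v hvI) G' hG''
        obtain ⟨k11, k12, k13⟩ := k4 X y _ h3
        have hXv : RR D (b.u (tK (app F v) ζ)) G' X := by
          rw [← y3 v hvI]
          exact hQRM D hK.ok _ G' _ _ u5 u7 hG'' q5 k5 sq (s1 v hvI) q6 k6 X (hqs X hX) k11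
        have hyv : RR D (b.u (tK (app F v) ζ)) G' y := by
          rw [← y3 v hvI]
          exact hQRM D hK.ok _ G' _ _ u5 u7 hG'' q5 k5 sq (s1 v hvI) q6 k6 y (hqs y hy) k12
        obtain ⟨⟨m1, -, -, -, m5, m6, m7, -, -, m10, -⟩, mG⟩ :=
          hZW D κ b hK hb _ _ _ (Zv v hvI _ hζκ)
        have hs' : b.u (tK (app F v) ζ) ⊆ b.u (tK (app F v) (insert ζ ζ)) :=
          smo v hvI _ hζκ _ hξ1 hsub
        have kk := kG _ u5 u7 (s1 v hvI) G' hG''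
        have hcc := kk.2.2.2.2.2.2.2.2.1 _ m5 hs' m6
        refine (hTw v hvI).t1 ζ hζκ ζ hζκ (insert ζ ζ) hξ1 (fun x hx => hx) hξi _ k2 X y
          ((hcc.1 X).1 hXv) ((hcc.1 y).1 hyv) ((k8 X y _).1 h3)
      · exact h3.ny (hqs y hy)
    · -- old entries
      have hηξ' : η ∈ ξ := by
        rcases ((r4 η hηκ ζ hζκ).1).1 hηζ with h2 | rfl
        · have := ((r4 ζ hζκ ξ hξ).1).2 (Or.inl h1)
          exact this h2
        · exact h1
      have h2 := (hf.r ξ hξi η hηξ').t1 ζ hηζ h1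
      rw [← hq] at h2
      have h3 := (hZE D κ b hK hb _ _ _ _ _ _ _ q10 w10 hqq).2 _ w5 w7 (fun x hx => hx) G' hG'
      have hlt : b.rho D ζ < b.rho D ξ := ((r4 ζ hζκ ξ hξ).2.2.2.2.2.1).1 h1
      have h4 := (h3.2.2.2.1 X (hqs X hX) y _ hlt).2 hE
      obtain ⟨c1, c2, c3, c4, c5, c6, c7, c8, c9, -⟩ := qG _ w5 w7 (sLe hqq.le) G' hG'
      have hse : b.u (fst (app f η)) ⊆ b.u (fst q) := sLe hηξ.le
      have c10 := c9 _ e5 hse e6
      exact h2 _ c1 X y ((c10.1 X).1 hX) ((c10.1 y).1 hy) ((c4 X y _).1 h4)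
  · -- Pr3
    have hN : D.N (b.rho D ξ).toZFSet := (r6 ξ hξ).2.2.1
    obtain ⟨-, -, hPI, -, -, -⟩ := hLL D κ b _ ⟨hK, hb, hN⟩
    have huq : b.u (fst q') = b.u (fst u) := by rw [eq']
    refine ⟨by rw [eq']; exact hu.lq.2, ?_, ?_, ?_⟩
    · intro G' hG' X hX hXd hXn hXp
      have hG'' : D.Gn (b.u (fst u)) G' := by rw [← eq']; exact hG'
      obtain ⟨c1, c2, c3, c4, c5, c6, c7, c8, c9, c10, c11, c12, c13⟩ := qG _ u5 u7 sq G' hG''
      have hXu : RR D (b.u (fst u)) G' X := c2 X hX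
      by_cases hv1 : ∃ v ∈ I, RR D (b.u (tK (app F v) (insert ξ ξ))) G' X
      · obtain ⟨v, hvI, hXv⟩ := hv1
        obtain ⟨⟨k1, -, -, -, k5, k6, k7, -, -, k10, -⟩, kG⟩ :=
          hZW D κ b hK hb _ _ _ (Zv v hvI _ hξ1)
        obtain ⟨⟨m1, -, -, -, m5, m6, m7, -, -, m10, -⟩, mG⟩ :=
          hZW D κ b hK hb _ _ _ (Zv v hvI _ hξ)
        have hXv0 : RR D (b.u (tK (app F v) ξ)) G' X := by
          rw [← y3 v hvI]
          exact hQRM D hK.ok _ G' _ _ u5 u7 hG'' q5 k5 sq (s1 v hvI) q6 k6 X hX hXv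
        have hvq : b.LW D (b.rho D ξ) (tK (app F v) ξ) (tH (app F v) ξ) (fst q) (snd q) :=
          hqg.le v hvI
        have hvs : b.u (tK (app F v) ξ) ⊆ b.u (fst q) := sLe hvq.le
        have z1 := (hZE D κ b hK hb _ _ _ _ _ _ _ m10 q10 hvq).2 _ u5 u7 sq G' hG''
        -- the type
        have hGq : D.Gn (b.u (fst q)) (gs G' (b.u (fst q))) := c1
        have hXq : RR D (b.u (tK (app F v) ξ)) (gs G' (b.u (fst q))) X :=
          ((c9 _ m5 hvs m6).1 X).1 hXv0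
        have h1 := (hPI _ _ _ _ (Zv v hvI _ hξ) wq hvq _ hGq X hXq).2.1.2 hXn
        rw [z1.2.1] at h1
        have hs' : b.u (tK (app F v) ξ) ⊆ b.u (tK (app F v) (insert ξ ξ)) :=
          smo v hvI _ hξ _ hξ1 hsub
        obtain ⟨k2, k3, k4, k8, k9, k11, k12, k13, k14, k15, k16, k17, k18⟩ :=
          kG _ u5 u7 (s1 v hvI) G' hG''
        have hvv : b.LW D (b.rho D ξ) (tK (app F v) ξ) (tH (app F v) ξ)
            (tK (app F v) (insert ξ ξ)) (tH (app F v) (insert ξ ξ)) :=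
          (hTw v hvI).t0 ξ hξ _ hξ1 hξi
        have z2 := (hZE D κ b hK hb _ _ _ _ _ _ _ m10 k10 hvv).2 _ u5 u7 (s1 v hvI) G' hG''
        obtain ⟨d1, d2, d3, d4, d5, d6, d7, d8, d9, d10, d11, d12, d13⟩ :=
          mG _ u5 u7 (fun i hi => sq (hvs hi)) G' hG''
        obtain ⟨d1', d2', d3', d4', d5', d6', d7', d8', d9', d10', d11', d12', d13'⟩ :=
          mG _ k5 k7 hs' _ k2
        have hcc := k14 _ m5 hs' m6
        have hnd : ¬ Dcc (tH (app F v) ξ) (gs G' (b.u (tK (app F v) (insert ξ ξ)))) X := by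
          intro h2
          rw [d5', z2.2.1, ← d5] at h2
          exact hXd (z1.2.2.2.2.2.2.1 X h2 le_rfl)
        have hnp : ¬ b.Pt (tK (app F v) ξ) (gs G' (b.u (tK (app F v) (insert ξ ξ)))) X := by
          intro h2
          rw [d7', z2.2.1, ← d7] at h2
          exact hXp ((c13 _ m1 hvs X hXv0).2 h2)
        obtain ⟨y, hy⟩ := (hTw v hvI).t2 ξ hξ _ k2 X ((hcc.1 X).1 hXv0) hnd
          (by
            show b.Nn D (b.Wd D) (b.rho D ξ) (tK (app F v) ξ) (tH (app F v) ξ)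
              (gs (gs G' (b.u (tK (app F v) (insert ξ ξ)))) (b.u (tK (app F v) ξ))) X
            rw [z2.2.1]
            exact h1) hnp
        have hy' : Ent (tH (app F v) (insert ξ ξ)) G' X y (b.rho D ξ) := (k8 X y _).2 hy
        have z3 := (hZE D κ b hK hb _ _ _ _ _ _ _ k10 w10 (hv v hvI)).2 _ w5 w7
          (fun x hx => hx) G' hG'
        exact ⟨y, z3.2.2.2.2.1 X y _ hy' (r6 ξ hξ).2.2.2.2.1⟩
      · have hnv : ∀ v ∈ I, ¬ RR D (b.u (tK (app F v) (insert ξ ξ))) G' X :=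
          fun v hvI h => hv1 ⟨v, hvI, h⟩
        have z1 := (hZE D κ b hK hb _ _ _ _ _ _ _ q10 u10 hqu).2 _ u5 u7 (fun x hx => hx) G' hG''
        have hud : ¬ Dcc (snd u) G' X := fun h => hXd (z1.2.2.2.2.2.2.2.1 X hX h le_rfl)
        have h1 := (hPI _ _ _ _ wq wu hqu _ hG'' X hX).2.1.1 hXn
        obtain ⟨y, hy⟩ := hu'.c G' hG'' X hX hnv hud h1 hXp
        exact ⟨y, (hlate G' hG'' X hXu y).2 hy⟩
    · intro G' hG' X y hX hy hk
      have hG'' : D.Gn (b.u (fst u)) G' := by rw [← eq']; exact hG'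
      obtain ⟨x, hx, hxk⟩ := (hG G' hG'').ii X y hX hy hk
      obtain ⟨⟨k1, -, -, -, k5, k6, k7, -, -, k10, -⟩, kG⟩ := hZW D κ b hK hb _ _ _ (ZF1 x hx)
      have h1 := ((kG _ u5 u7 (sF x hx) G' hG'').2.2.2.2.2.2.2.1 X y).2 hxk
      have z1 := (hZE D κ b hK hb _ _ _ _ _ _ _ k10 u10 (hu.lp x hx)).2 _ u5 u7
        (fun x hx => hx) G' hG''
      rw [eq']
      exact z1.2.2.2.2.2.2.2.2 X y h1
    · intro G' hG' X y hX hy hk
      have hG'' : D.Gn (b.u (fst u)) G' := by rw [← eq']; exact hG'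
      obtain ⟨x, hx, j, hj, h1, h2⟩ := (hG G' hG'').v X y hX hy hk
      rw [eq']
      exact ⟨j, sF x hx hj, h1, h2⟩

end SE.UZ
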