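import Pool.Agent.H9.UZ.FAP
import Pool.Agent.H72.UZ.FinG
import Pool.Agent.H75.UZ.TarKO

/-!
# MP_f6fd33_lc: the final statement (pairs and finite sets of pairwise non adjacent levels)
-/

set_option linter.unusedVariables false

open Ordinal Order Set
open scoped ZFSet

namespace SE.UZ

open SF

/-- FIN: finite sets of pairwise non adjacent levels different from `2` -/
def T_FIN : Prop := ∀ A : Finset ℕ, (∀ n ∈ A, 1 ≤ n ∧ n ≠ 2) →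
  (∀ n ∈ A, ∀ m ∈ A, n ≠ m → n + 2 ≤ m ∨ m + 2 ≤ n) →
  ∀ τ : Ordinal.{0}, ((LA ∅ τ : V) : Set V).Countable → ZFC (· ∈ LA ∅ τ) →
    ∃ c ∈ LA ∅ τ, ∃ r ∈ LA ∅ τ, IsPo c r ∧ ∀ G, Gen (· ∈ LA ∅ τ) c r G →
      ∀ n ∈ A, PUF.PiUniformization (Ext (· ∈ LA ∅ τ) G) n

theorem pf_FIN (hFAP : T_FAP) (hFAG : T_FAG) (hKO : T_KO) (hPTU : T_PTU) : T_FIN := by
  intro A hA hn τ hc hz
  obtain ⟨c, h1, r, h2, h3, h4⟩ := hFAP (fun W => ∀ n ∈ A.filter (3 ≤ ·), UniH W n)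
    (fun D κ hK => hFAG D κ hK (A.filter (3 ≤ ·))
      (fun n m h h' => hn n (Finset.mem_filter.1 h).1 m (Finset.mem_filter.1 h').1)
      (fun n h => (Finset.mem_filter.1 h).2)) τ hc hz
  refine ⟨c, h1, r, h2, h3, fun G hG n hnA => ?_⟩
  obtain ⟨h5, h6⟩ := h4 G hG
  have hM : ZFm (Ext (· ∈ LA ∅ τ) G) := h5.toZFCm.toZFm
  apply hPTU _ hM n
  obtain ⟨h7, h8⟩ := hA n hnA
  rcases Nat.lt_or_ge n 3 with h9 | h9
  · have e : n = 1 := by omega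
    subst e
    exact hKO _ h5
  · exact h6 n (Finset.mem_filter.2 ⟨hnA, h9⟩)

theorem fin_pairs (h : T_FIN) : ∀ n m : ℕ, 1 ≤ n → 1 ≤ m → n ≠ 2 → m ≠ 2 →
    (n + 2 ≤ m ∨ m + 2 ≤ n) →
    ∀ τ : Ordinal.{0}, ((LA ∅ τ : V) : Set V).Countable → ZFC (· ∈ LA ∅ τ) →
      ∃ c ∈ LA ∅ τ, ∃ r ∈ LA ∅ τ, IsPo c r ∧ ∀ G, Gen (· ∈ LA ∅ τ) c r G →
        PUF.PiUniformization (Ext (· ∈ LA ∅ τ) G) n ∧
        PUF.PiUniformization (Ext (· ∈ LA ∅ τ) G) m := by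
  intro n m hn hm hn2 hm2 hnm τ hc hz
  obtain ⟨c, h1, r, h2, h3, h4⟩ := h {n, m} (by
      intro k hk
      rcases Finset.mem_insert.1 hk with rfl | hk
      · exact ⟨hn, hn2⟩
      · rw [Finset.mem_singleton.1 hk]
        exact ⟨hm, hm2⟩) (by
      intro k hk k' hk' hne
      simp only [Finset.mem_insert, Finset.mem_singleton] at hk hk'
      rcases hk with rfl | rfl <;> rcases hk' with rfl | rfl
      · exact absurd rfl hne
      · exact hnm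
      · exact hnm.symm
      · exact absurd rfl hne) τ hc hz
  exact ⟨c, h1, r, h2, h3, fun G hG => ⟨h4 G hG n (by simp), h4 G hG m (by simp)⟩⟩

end SE.UZ
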