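import Pool.Agent.H75.UZ.TarKO
import Pool.Agent.H9.SE.SUB

/-!
# KO11: the set without improvements is `Π¹₁`
-/

set_option linter.unusedVariables false

open Ordinal Order Set
open scoped ZFSet

namespace SE.UZ

open SF CAA

namespace KE11

/-- the components of the real `z` -/
noncomputable def un (F : V → V) (z : V) : V := resS om fun n => F (app z n)

theorem un_rl (hG : T_AG) {F : V → V} (hF : ∀ h ∈ hf, F h ∈ hf) {z : V} (hz : Rl z) :
    Rl (un F z) ∧ ∀ n : ℕ, app (un F z) (nS n) = F (app z (nS n)) :=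
  hG.2.2.2.2.2 (fun n => F (app z n)) fun n => hF _ ((hG.1 z hz).2.2.1 n).1

theorem rs_eq (hF : T_AF) (hG : T_AG) {x y : V} (hx : Rl x) (hy : Rl y) {n : ℕ} :
    rs x (nS n) = rs y (nS n) ↔ ∀ l < n, app x (nS l) = app y (nS l) := by
  have h1 := (hG.1 x hx).2.2.1 n
  have h2 := (hG.1 y hy).2.2.1 n
  constructor
  · intro h l hl
    rw [← h1.2.2.2 l hl, ← h2.2.2.2 l hl, h]
  · intro h
    apply ZFSet.ext_iff.2 ∘ fun h => h
    intro z
    constructor
    · intro hz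
      exact (hF.2.2.2.2.2.2.1 n _ n _ h1.2.1 h2.2.1).2 ⟨le_rfl, fun l hl => by
        rw [h1.2.2.2 l hl, h2.2.2.2 l hl, h l hl]⟩ hz
    · intro hz
      exact (hF.2.2.2.2.2.2.1 n _ n _ h2.2.1 h1.2.1).2 ⟨le_rfl, fun l hl => by
        rw [h1.2.2.2 l hl, h2.2.2.2 l hl, h l hl]⟩ hz

theorem un_rs (hAF : T_AF) (hG : T_AG) {F : V → V} (hF : ∀ h ∈ hf, F h ∈ hf) {z z' : V}
    (hz : Rl z) (hz' : Rl z') {n : ℕ} (h : rs z' (nS n) = rs z (nS n)) :
    rs (un F z') (nS n) = rs (un F z) (nS n) := by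
  rw [rs_eq hAF hG (un_rl hG hF hz').1 (un_rl hG hF hz).1]
  intro l hl
  rw [(un_rl hG hF hz').2, (un_rl hG hF hz).2, (rs_eq hAF hG hz' hz).1 h l hl]

theorem un_eq (hG : T_AG) {F : V → V} (hF : ∀ h ∈ hf, F h ∈ hf) {z x : V}
    (hz : Rl z) (hx : Rl x) (h : ∀ n : ℕ, F (app z (nS n)) = app x (nS n)) : un F z = x :=
  hG.2.2.1 _ _ (un_rl hG hF hz).1 hx fun n => by rw [(un_rl hG hF hz).2, h]

theorem un_tm {F : V → V} (hF : Tm ZFm fun _ v => F (v 0)) : Tm ZFm fun _ v => un F (v 0) :=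
  Tm.resS (f := fun _ _ => om) (g := fun _ v => F (app (v 1) (v 0))) Tm.om
    (Tm.at1 (F := fun _ x => F x) hF (Tm.app (Tm.var 1) (Tm.var 0)))

end KE11

open KE11

theorem pf_KO11 (hO1 : T_KO1) (hO9 : T_KO9) (hO10 : T_KO10) (hA : T_AA) (hF : T_AF) (hG : T_AG)
    (hH : T_AH) (hI : T_AI) (hB : T_KB) : T_KO11 := by
  intro W hW e j we wj hE a wa ra
  have f1 : ∀ h ∈ hf, fst h ∈ hf := fun h hh => (sub_fst hA hh).1
  have f2 : ∀ h ∈ hf, snd h ∈ hf := fun h hh => (sub_fst hA hh).2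
  obtain ⟨FX, hFX⟩ : ∃ F : V → V, F = fun h => fst (fst h) := ⟨_, rfl⟩
  obtain ⟨FY, hFY⟩ : ∃ F : V → V, F = fun h => snd (fst h) := ⟨_, rfl⟩
  obtain ⟨FV, hFV⟩ : ∃ F : V → V, F = fun h => fst (snd h) := ⟨_, rfl⟩
  obtain ⟨FZ, hFZ⟩ : ∃ F : V → V, F = fun h => fst (snd (snd h)) := ⟨_, rfl⟩
  obtain ⟨FW, hFW⟩ : ∃ F : V → V, F = fun h => snd (snd (snd h)) := ⟨_, rfl⟩
  have gX : ∀ h ∈ hf, FX h ∈ hf := fun h hh => by rw [hFX]; exact f1 _ (f1 _ hh)
  have gY : ∀ h ∈ hf, FY h ∈ hf := fun h hh => by rw [hFY]; exact f2 _ (f1 _ hh)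
  have gV : ∀ h ∈ hf, FV h ∈ hf := fun h hh => by rw [hFV]; exact f1 _ (f2 _ hh)
  have gZ : ∀ h ∈ hf, FZ h ∈ hf := fun h hh => by rw [hFZ]; exact f1 _ (f2 _ (f2 _ hh))
  have gW : ∀ h ∈ hf, FW h ∈ hf := fun h hh => by rw [hFW]; exact f2 _ (f2 _ (f2 _ hh))
  have tX : Tm ZFm fun _ v => un FX (v 0) := un_tm (by
    rw [hFX]; exact Tm.fst (Tm.fst (Tm.var 0)))
  have tY : Tm ZFm fun _ v => un FY (v 0) := un_tm (by
    rw [hFY]; exact Tm.snd (Tm.fst (Tm.var 0)))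
  have tV : Tm ZFm fun _ v => un FV (v 0) := un_tm (by
    rw [hFV]; exact Tm.fst (Tm.snd (Tm.var 0)))
  have tZ : Tm ZFm fun _ v => un FZ (v 0) := un_tm (by
    rw [hFZ]; exact Tm.fst (Tm.snd (Tm.snd (Tm.var 0))))
  have tW : Tm ZFm fun _ v => un FW (v 0) := un_tm (by
    rw [hFW]; exact Tm.snd (Tm.snd (Tm.snd (Tm.var 0))))
  have tp : ∀ {f g : (V → Prop) → (ℕ → V) → V}, Tm ZFm f → Tm ZFm g →
      Tm ZFm (fun M v => prl (f M v) (g M v)) := fun h h' =>
    Tm.at2 (F := fun _ x y => prl x y) hI.2.2.1 h h'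
  have d1 : Dfb ZFm (fun _ v => Opn (v 3) (prl (prl (un FX (v 0)) (un FY (v 0)))
      (un FV (v 0)))) :=
    Dfb.at2 (P := fun _ x y => Opn x y) hI.2.2.2.2.1 (Tm.var 3) (tp (tp tX tY) tV)
  have d2 : Dfb ZFm (fun _ v => Imp (v 1) (v 2) (v 3) (un FX (v 0)) (un FY (v 0))
      (un FZ (v 0)) (un FW (v 0))) :=
    hO9.2.comp (args [fun _ v => v 1, fun _ v => v 2, fun _ v => v 3, fun _ v => un FX (v 0),
      fun _ v => un FY (v 0), fun _ v => un FZ (v 0), fun _ v => un FW (v 0)])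
      (tm_args _ (by
        intro a ha; simp only [List.mem_cons, List.not_mem_nil, or_false] at ha
        rcases ha with rfl | rfl | rfl | rfl | rfl | rfl | rfl
        exacts [Tm.var 1, Tm.var 2, Tm.var 3, tX, tY, tZ, tW]))
  obtain ⟨b, wb, rb, hb⟩ := hO1 (fun _ v => Opn (v 3) (prl (prl (un FX (v 0)) (un FY (v 0)))
      (un FV (v 0))) ∧ ¬ Imp (v 1) (v 2) (v 3) (un FX (v 0)) (un FY (v 0))
      (un FZ (v 0)) (un FW (v 0))) (d1.and d2.not) W hW (fun i => match i with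
        | 0 => e | 1 => j | _ => a) (fun i => by
        rcases i with _ | _ | i
        exacts [we, wj, wa]) (by
    intro z wz rz hz
    obtain ⟨h1, h2⟩ := hz
    have rX := (un_rl hG gX rz).1
    have rY := (un_rl hG gY rz).1
    have rV := (un_rl hG gV rz).1
    have rZ := (un_rl hG gZ rz).1
    have rW := (un_rl hG gW rz).1
    have r1 := (hH.1 _ _ rX rY).1
    have r2 := (hH.1 _ _ r1 rV).1
    obtain ⟨m, hm⟩ := (hB.1 a _ ra r2).1 h1
    obtain ⟨n, hn⟩ := hO10 e j a _ _ _ _ hE ra rX rY rZ rW h2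
    refine ⟨max m n, fun z' wz' rz' he => ?_⟩
    have rX' := (un_rl hG gX rz').1
    have rY' := (un_rl hG gY rz').1
    have rV' := (un_rl hG gV rz').1
    have rZ' := (un_rl hG gZ rz').1
    have rW' := (un_rl hG gW rz').1
    have r1' := (hH.1 _ _ rX' rY').1
    have r2' := (hH.1 _ _ r1' rV').1
    have em : rs z' (nS m) = rs z (nS m) := (rs_eq hF hG rz' rz).2 fun l hl =>
      (rs_eq hF hG rz' rz).1 he l (lt_of_lt_of_le hl (le_max_left _ _))
    have en : rs z' (nS n) = rs z (nS n) := (rs_eq hF hG rz' rz).2 fun l hl =>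
      (rs_eq hF hG rz' rz).1 he l (lt_of_lt_of_le hl (le_max_right _ _))
    refine ⟨(hB.1 a _ ra r2').2 ⟨m, ?_⟩, hn _ _ _ _ rX' rY' rZ' rW'
      (un_rs hF hG gX rz rz' en) (un_rs hF hG gY rz rz' en) (un_rs hF hG gZ rz rz' en)
      (un_rs hF hG gW rz rz' en)⟩
    have e1 : rs (prl (un FX z') (un FY z')) (nS m) = rs (prl (un FX z) (un FY z)) (nS m) :=
      (hH.2.2.1 _ _ _ _ rX' rY' rX rY m).2 ⟨un_rs hF hG gX rz rz' em, un_rs hF hG gY rz rz' em⟩
    have e2 : rs (prl (prl (un FX z') (un FY z')) (un FV z')) (nS m) =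
        rs (prl (prl (un FX z) (un FY z)) (un FV z)) (nS m) :=
      (hH.2.2.1 _ _ _ _ r1' rV' r1 rV m).2 ⟨e1, un_rs hF hG gV rz rz' em⟩
    show rs (prl (prl (un FX z') (un FY z')) (un FV z')) (nS m) ∈ rg a
    rw [e2]
    exact hm)
  refine ⟨b, wb, rb, fun x y wx rx wy ry => ?_⟩
  have hxy := hH.1 x y rx ry
  have wxy : ∀ x y, W x → W y → W (prl x y) := fun x y wx wy =>
    hI.2.2.1.1 W hW (fun i => match i with | 0 => x | _ => y) (fun i => by
      rcases i with _ | i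
      exacts [wx, wy])
  constructor
  · intro h
    have key : ∀ v0 y' w, W v0 → Rl v0 → W y' → Rl y' → W w → Rl w →
        Opn a (prl (prl x y) v0) ∧ ¬ Imp e j a x y y' w := by
      intro v0 y' w wv rv wy' ry' ww rw'
      have h1 := hH.1 y' w ry' rw'
      have h2 := hH.1 v0 _ rv h1.1
      have h3 := hH.1 _ _ hxy.1 h2.1
      have h4 : Opn b (prl (prl x y) (prl v0 (prl y' w))) := by
        by_contra h5
        exact h ⟨_, wxy _ _ wv (wxy _ _ wy' ww), h2.1, h5⟩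
      have h5 := (hb _ (wxy _ _ (wxy _ _ wx wy) (wxy _ _ wv (wxy _ _ wy' ww))) h3.1).1 h4
      have eX : un FX (prl (prl x y) (prl v0 (prl y' w))) = x := un_eq hG gX h3.1 rx fun n => by
        rw [h3.2, hxy.2, hFX]; simp only [fst_pair]
      have eY : un FY (prl (prl x y) (prl v0 (prl y' w))) = y := un_eq hG gY h3.1 ry fun n => by
        rw [h3.2, hxy.2, hFY]; simp only [fst_pair, snd_pair]
      have eV : un FV (prl (prl x y) (prl v0 (prl y' w))) = v0 := un_eq hG gV h3.1 rv fun n => by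
        rw [h3.2, h2.2, hFV]; simp only [fst_pair, snd_pair]
      have eZ : un FZ (prl (prl x y) (prl v0 (prl y' w))) = y' := un_eq hG gZ h3.1 ry' fun n => by
        rw [h3.2, h2.2, h1.2, hFZ]; simp only [fst_pair, snd_pair]
      have eW : un FW (prl (prl x y) (prl v0 (prl y' w))) = w := un_eq hG gW h3.1 rw' fun n => by
        rw [h3.2, h2.2, h1.2, hFW]; simp only [snd_pair]
      change Opn a (prl (prl (un FX (prl (prl x y) (prl v0 (prl y' w))))
        (un FY (prl (prl x y) (prl v0 (prl y' w))))) (un FV (prl (prl x y) (prl v0 (prl y' w))))) ∧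
        ¬ Imp e j a (un FX (prl (prl x y) (prl v0 (prl y' w))))
          (un FY (prl (prl x y) (prl v0 (prl y' w)))) (un FZ (prl (prl x y) (prl v0 (prl y' w))))
          (un FW (prl (prl x y) (prl v0 (prl y' w)))) at h5
      rwa [eX, eY, eV, eZ, eW] at h5
    exact ⟨fun v wv rv => (key v v v wv rv wv rv wv rv).1,
      fun y' w wy' ry' ww rw' => (key w y' w ww rw' wy' ry' ww rw').2⟩
  · rintro ⟨h1, h2⟩ ⟨v, wv, rv, h3⟩
    apply h3
    have h4 := hH.1 _ v hxy.1 rv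
    have w4 := wxy _ _ (wxy _ _ wx wy) wv
    refine (hb _ w4 h4.1).2 ?_
    have eX : un FX (prl (prl x y) v) = x := un_eq hG gX h4.1 rx fun n => by
      rw [h4.2, hxy.2, hFX]; simp only [fst_pair]
    have eY : un FY (prl (prl x y) v) = y := un_eq hG gY h4.1 ry fun n => by
      rw [h4.2, hxy.2, hFY]; simp only [fst_pair, snd_pair]
    have wu : ∀ {F : V → V}, (Tm ZFm fun _ v => un F (v 0)) → W (un F (prl (prl x y) v)) :=
      fun hT => hT.1 W hW (fun _ => prl (prl x y) v) fun _ => w4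
    show Opn a (prl (prl (un FX (prl (prl x y) v)) (un FY (prl (prl x y) v)))
        (un FV (prl (prl x y) v))) ∧
      ¬ Imp e j a (un FX (prl (prl x y) v)) (un FY (prl (prl x y) v))
        (un FZ (prl (prl x y) v)) (un FW (prl (prl x y) v))
    rw [eX, eY]
    exact ⟨h1 _ (wu tV) (un_rl hG gV h4.1).1, h2 _ _ (wu tZ) (un_rl hG gZ h4.1).1 (wu tW)
      (un_rl hG gW h4.1).1⟩

end SE.UZ
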