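import Pool.Agent.H45.UZ.AllU
import Pool.Agent.H51.UZ.KO6
import Pool.Agent.H66.UZ.KO7
import Pool.Agent.H66.UZ.KO9
import Pool.Agent.H67.UZ.KO10
import Pool.Agent.H67.UZ.KO3
import Pool.Agent.H68.UZ.KO1
import Pool.Agent.H69.UZ.KO4
import Pool.Agent.H7.UZ.KO8
import Pool.Agent.H72.UZ.Fin
import Pool.Agent.H72.UZ.KO11
import Pool.Agent.H74.UZ.KO5
import Pool.Agent.H86.UZ.KO2
import Pool.Agent.H9.SE.AllK
import Pool.Agent.H90.UZ.KO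
import Pool.Agent.H38.SE.All

/-!
# MP_f6fd33_lc: the last part of the assembly (Kondo's theorem, the final statement)

`SE.UZ.All.a_X` is in `Pool/Agent/H45/UZ/AllU.lean`, `SE.All.aX` in `Pool/Agent/H9/SE/AllK.lean` and
`Pool/Agent/H38/SE/All.lean`.
-/

set_option linter.unusedVariables false

namespace SE.UZ.AllK

theorem aKO1 : T_KO1 := pf_KO1 SE.All.aAF SE.All.aAG SE.All.aAI SE.All.aKB

theorem aKO2 : T_KO2 := t_ko2

theorem aKO3 : T_KO3 := t_ko3 SE.All.aKC SE.All.aKA SE.All.aKI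

theorem aKO4 : T_KO4 := pf_KO4 SE.All.aAF SE.All.aAG SE.All.aAH

theorem aKO5 : T_KO5 := H74KO5.pf_KO5 SE.All.aAA SE.All.aKG

theorem aKO6 : T_KO6 := t_ko6 SE.All.aAA SE.All.aAF SE.All.aAG SE.All.aAI SE.All.aKC aKO2 aKO3 aKO4
  SE.All.aKI SE.All.aAH

theorem aKO7 : T_KO7 := H66KO7.t_ko7 aKO3 aKO4 SE.All.aAA SE.All.aKC

theorem aKO8 : T_KO8 := H7KO8.pf_KO8 SE.All.aAA SE.All.aAG SE.All.aKC aKO3

theorem aKO9 : T_KO9 := H66KO9.t_ko9 SE.All.aAA SE.All.aKC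

theorem aKO10 : T_KO10 := t_ko10 aKO4 SE.All.aAF SE.All.aAG

theorem aKO11 : T_KO11 := pf_KO11 aKO1 aKO9 aKO10 SE.All.aAA SE.All.aAF SE.All.aAG SE.All.aAH
  SE.All.aAI SE.All.aKB

/-- `Π¹₁` uniformization in the models of ZFC (Kondo) -/
theorem aKO : T_KO := pf_KO SE.All.aAH SE.All.aAI aKO3 aKO5 aKO6 aKO7 aKO8 aKO11

/-- finite sets of pairwise non adjacent levels -/
theorem aFIN : T_FIN := pf_FIN SE.UZ.All.a_FAP SE.UZ.All.a_FAG aKO SE.UZ.All.a_PTU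

end SE.UZ.AllK
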