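import Pool.Agent.H72.UZ.Proc

/-!
# MP_f6fd33_lc: towers, rich towers, the new base system of level `l + 2` (paper: sections 7, 9)
-/

set_option linter.unusedVariables false

open Ordinal Order Set
open scoped ZFSet

namespace SE.UZ

open SF

/-! ## Images of histories -/

/-- the image of an element of a history -/
noncomputable def mve (π z : V) : V := ZFSet.pair (mv π (fst z)) (ZFSet.pair
  (mvn π (fst (snd z))) (ZFSet.pair (mvn π (fst (snd (snd z)))) (snd (snd (snd z)))))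

/-- the image of a history -/
noncomputable def mvh (π h : V) : V := imS h fun z => mve π z

/-- the set of the sets with the property `P`, if it exists -/
noncomputable def stf (P : V → Prop) : V :=
  open Classical in if h : ∃ X : V, ∀ x, x ∈ X ↔ P x then choose h else ∅

/-! ## Towers -/

/-- the L-stage with the number `ξ` -/
noncomputable def BS.rho (b : BS) (D : Cx) (ξ : V) : Ordinal.{0} :=
  sInf {e | b.Ls D (b.Wd D) e ∧ (b.cn D (b.Wd D) e).toZFSet = ξ}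

/-- the core of the tower `T` with the number `ξ` -/
noncomputable def tK (T ξ : V) : V := fst (app T ξ)
/-- its history -/
noncomputable def tH (T ξ : V) : V := snd (app T ξ)

/-- the set of labels of the tower `T` -/
noncomputable def BS.ut (b : BS) (κ T : V) : V := ⋃₀ (imS κ fun ξ => b.u (tK T ξ))

/-- worlds as pairs: `p` is a world of stage `ρ_ξ` -/
structure BS.Wr (b : BS) (D : Cx) (ξ p : V) : Prop where
  pr : p = ZFSet.pair (fst p) (snd p)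
  w : b.Wd D (b.rho D ξ) (fst p) (snd p)

/-- `p` is a face of `q` of stage `ρ_ξ` -/
def BS.Lr (b : BS) (D : Cx) (ξ p q : V) : Prop :=
  b.LW D (b.rho D ξ) (fst p) (snd p) (fst q) (snd q)

/-- (T1): no entry of `q` of stage `ρ_ζ` is a pair of reals of `p` -/
def BS.R1 (b : BS) (D : Cx) (ζ p q : V) : Prop := ∀ G, D.Gn (b.u (fst q)) G → ∀ X y,
  RR D (b.u (fst p)) G X → RR D (b.u (fst p)) G y → ¬ Ent (snd q) G X y (b.rho D ζ)

/-- (T2) -/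
def BS.R2 (b : BS) (D : Cx) (ξ p q : V) : Prop := ∀ G, D.Gn (b.u (fst q)) G → ∀ X,
  RR D (b.u (fst p)) G X → ¬ Dcc (snd p) G X →
  b.Nn D (b.Wd D) (b.rho D ξ) (fst p) (snd p) (gs G (b.u (fst p))) X → ¬ b.Pt (fst p) G X →
  ∃ y, Ent (snd q) G X y (b.rho D ξ)

/-- (R1) -/
def BS.R3 (b : BS) (D : Cx) (ξ p q : V) : Prop := ∀ G, D.Gn (b.u (fst q)) G → ∀ X y,
  RR D (b.u (fst p)) G X → RR D (b.u (fst p)) G y →
  b.Kb D (b.Wd D) (b.rho D ξ) (fst p) (snd p) (gs G (b.u (fst p))) X y → b.Kil D (fst q) G X y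

/-- (R4) -/
def BS.R4 (b : BS) (D : Cx) (p q : V) : Prop := ∀ G, D.Gn (b.u (fst q)) G → ∀ X y,
  RR D (b.u (fst p)) G X → RR D (b.u (fst p)) G y → (¬ ∃ e, Ent (snd p) G X y e) →
  ∃ j ∈ b.u (fst q), b.Co j ∧ ev G (lZ j) = prl X y

/-- towers -/
structure BS.Tw (b : BS) (D : Cx) (κ T : V) : Prop where
  n : D.N T
  f : T = resS κ (app T)
  w : ∀ ξ ∈ κ, b.Wr D ξ (app T ξ)
  tm : ∀ ξ ∈ κ, ∀ j ∈ b.u (tK T ξ), b.Co j → tm j ∈ ξ
  t0 : ∀ ξ ∈ κ, ∀ η ∈ κ, ξ ∈ η → b.Lr D ξ (app T ξ) (app T η)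
  t1 : ∀ ξ ∈ κ, ∀ ζ ∈ κ, ∀ η ∈ κ, ξ ⊆ ζ → ζ ∈ η → b.R1 D ζ (app T ξ) (app T η)
  t2 : ∀ ξ ∈ κ, b.R2 D ξ (app T ξ) (app T (insert ξ ξ))

/-- the order of towers -/
structure BS.TLe (b : BS) (D : Cx) (κ T T' : V) : Prop where
  t : b.Tw D κ T
  t' : b.Tw D κ T'
  u : ∀ ξ ∈ κ, b.u (tK T ξ) = b.u (tK T' ξ) ∩ b.ut κ T
  le : ∀ ξ ∈ κ, b.Lr D ξ (app T ξ) (app T' ξ)

/-- rich towers -/
structure BS.Rt (b : BS) (D : Cx) (κ T : V) : Prop where
  t : b.Tw D κ T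
  r0 : ∀ ξ ∈ κ, b.Ri (tK T ξ) (tK T (insert ξ ξ))
  r1 : ∀ ξ ∈ κ, b.R3 D ξ (app T ξ) (app T (insert ξ ξ))
  r4 : ∀ ξ ∈ κ, b.R4 D (app T ξ) (app T (insert ξ ξ))

/-- `X` is decided by the tower `T` -/
def Dct (κ T G X : V) : Prop := ∃ ξ ∈ κ, Dcc (tH T ξ) G X

/-- `(X, y)` is an entry of the tower `T` -/
def Ett (κ T G X y : V) : Prop := ∃ ξ ∈ κ, ∃ e, Ent (tH T ξ) G X y e

/-- the image of a tower -/
noncomputable def BS.tT (b : BS) (κ π T : V) : V := resS κ fun ξ =>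
  ZFSet.pair (b.T (rst (b.u (tK T ξ)) π) (tK T ξ)) (mvh π (tH T ξ))

/-! ## The new base system -/

/-- the type of the new system -/
def BS.S' (b : BS) (k : ℕ) : Prop := b.S k ∨ k = b.l

/-- the secured facts of the new system: elements -/
def BS.Sq (b : BS) (D : Cx) (κ z : V) : Prop := ∃ T p a x, b.Tw D κ T ∧ p ∈ D.P (b.ut κ T) ∧
  (D.N a ∧ Nam D.L (b.ut κ T) a) ∧ (D.N x ∧ Nam D.L (b.ut κ T) x) ∧
  z = ZFSet.pair T (ZFSet.pair p (ZFSet.pair a x)) ∧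
  ∀ G, D.Gn (b.ut κ T) G → p ∈ G → ¬ Dct κ T G (prl (kc 0) (prl (ev G a) (ev G x)))

/-- the new base system -/
noncomputable def BS.Pr (b : BS) (D : Cx) (κ : V) : BS where
  l := b.l + 2
  S := b.S'
  Ob := stf (b.Tw D κ)
  U := resS (stf (b.Tw D κ)) fun T => b.ut κ T
  le := stf fun z => ∃ C T, b.TLe D κ C T ∧ z = ZFSet.pair C T
  Rc := stf fun z => ∃ C T, b.TLe D κ C T ∧ b.Rt D κ T ∧ z = ZFSet.pair C T
  tr := resS (stf fun z => ∃ π T ρ', b.Tw D κ T ∧ Isl D (b.l + 2) b.S' π (b.ut κ T) ρ' ∧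
    z = ZFSet.pair π T) fun z => b.tT κ (fst z) (snd z)
  Sc := stf (b.Sq D κ)

/-! ## The free functor (paper: section 2) -/

/-- objects of the free system -/
def BS.Of (b : BS) (D : Cx) (B : V) : Prop := B ∈ b.Ob ∧ ∀ i ∈ b.u B, ∀ k ∈ b.u B,
  kd i = nS b.l → kd k = nS (b.l + 1) → ∀ G, D.Gn (b.u B) G → ev G (lZ i) ≠ prm G k

/-- the secured facts of the free system -/
def BS.Sf (b : BS) (D : Cx) (B G a x : V) : Prop :=
  ¬ ∃ B' G', b.Of D B' ∧ b.Xt D B G B' G' ∧ b.Ss D B' G' a x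

/-- (f1) -/
def BS.F1 (b : BS) (D : Cx) (C B : V) : Prop := ∀ G, D.Gn (b.u B) G → ∀ a x,
  RR D (b.u C) G a → RR D (b.u C) G x → ¬ b.Sf D C (gs G (b.u C)) a x → b.Ss D B G a x

/-- (f2) -/
def BS.F2 (b : BS) (D : Cx) (C B : V) : Prop := ∀ G, D.Gn (b.u B) G → ∀ v,
  RR D (b.u C) G v → (∀ k ∈ b.u C, kd k = nS (b.l + 1) → v ≠ prm G k) →
  ∃ i ∈ b.u B, kd i = nS b.l ∧ ev G (lZ i) = v

/-- the secured facts of the free system: elements -/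
def BS.Sg (b : BS) (D : Cx) (z : V) : Prop := ∃ B p a x, b.Of D B ∧ p ∈ D.P (b.u B) ∧
  (D.N a ∧ Nam D.L (b.u B) a) ∧ (D.N x ∧ Nam D.L (b.u B) x) ∧
  z = ZFSet.pair B (ZFSet.pair p (ZFSet.pair a x)) ∧
  ∀ G, D.Gn (b.u B) G → p ∈ G → b.Sf D B G (ev G a) (ev G x)

/-- the free system -/
noncomputable def BS.Fr (b : BS) (D : Cx) : BS where
  l := b.l + 1
  S := b.S
  Ob := stf (b.Of D)
  U := resS (stf (b.Of D)) fun B => b.u B
  le := stf fun z => ∃ C B, b.Of D C ∧ b.Of D B ∧ b.Le C B ∧ z = ZFSet.pair C B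
  Rc := stf fun z => ∃ C B, b.Of D C ∧ b.Of D B ∧ b.Ri C B ∧ b.F1 D C B ∧ b.F2 D C B ∧
    z = ZFSet.pair C B
  tr := resS (stf fun z => ∃ π B ρ', b.Of D B ∧ Isl D (b.l + 1) b.S π (b.u B) ρ' ∧
    z = ZFSet.pair π B) fun z => b.T (fst z) (snd z)
  Sc := stf (b.Sg D)

end SE.UZ
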